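import Pool.Agent.Helper60.DC.Defs

/-!
# DC-D1: inequalities for the twelfth moment
-/

open MeasureTheory Real Set Filter Topology

set_option autoImplicit false

namespace Pool.Agent.Helper60.DC

open Pool.Agent.Helper22.AC

theorem intg3 {Ω : Type} [MeasurableSpace Ω] {μ : Measure Ω} [IsFiniteMeasure μ] {f g : Ω → ℂ}
    (hf : Measurable f) (hg : Measurable g) (hfb : ∃ B : ℝ, ∀ ω, ‖f ω‖ ≤ B)
    (hgb : ∃ B : ℝ, ∀ ω, ‖g ω‖ ≤ B) (p q : ℕ) :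
    Integrable (fun ω => ‖f ω‖ ^ p * ‖g ω‖ ^ q) μ := a5_intg hf hg hfb hgb p q

private theorem pow_bdd {Ω : Type} {f : Ω → ℂ} (hb : ∃ B : ℝ, ∀ ω, ‖f ω‖ ≤ B) (n : ℕ) :
    ∃ B : ℝ, 0 ≤ B ∧ ∀ ω, ‖f ω‖ ^ n ≤ B := by
  obtain ⟨B, hB⟩ := hb
  refine ⟨|B| ^ n, by positivity, fun ω => ?_⟩
  exact pow_le_pow_left₀ (norm_nonneg _) ((hB ω).trans (le_abs_self B)) n

private theorem mul_bdd {Ω : Type} {f g : Ω → ℂ} (hf : ∃ B : ℝ, ∀ ω, ‖f ω‖ ≤ B)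
    (hg : ∃ B : ℝ, ∀ ω, ‖g ω‖ ≤ B) (m n : ℕ) :
    ∃ B : ℝ, ∀ ω, |‖f ω‖ ^ m * ‖g ω‖ ^ n| ≤ B := by
  obtain ⟨B, hB0, hB⟩ := pow_bdd hf m
  obtain ⟨C, hC0, hC⟩ := pow_bdd hg n
  refine ⟨B * C, fun ω => ?_⟩
  rw [abs_of_nonneg (by positivity)]
  exact mul_le_mul (hB ω) (hC ω) (by positivity) hB0

private theorem csx {Ω : Type} [MeasurableSpace Ω] (μ : Measure Ω) [IsFiniteMeasure μ] {u v : Ω → ℝ}
    (hu : Measurable u) (hv : Measurable v) (hu0 : ∀ ω, 0 ≤ u ω) (hv0 : ∀ ω, 0 ≤ v ω)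
    (hub : ∃ B : ℝ, ∀ ω, |u ω| ≤ B) (hvb : ∃ B : ℝ, ∀ ω, |v ω| ≤ B) :
    ∫ ω, u ω * v ω ∂μ ≤ √(∫ ω, u ω ^ 2 ∂μ) * √(∫ ω, v ω ^ 2 ∂μ) := by
  obtain ⟨B, hB⟩ := hub
  obtain ⟨C, hC⟩ := hvb
  have h := integral_mul_le_Lp_mul_Lq_of_nonneg (μ := μ) Real.HolderConjugate.two_two
    (f := u) (g := v) (Eventually.of_forall hu0) (Eventually.of_forall hv0)
    (MemLp.of_bound hu.aestronglyMeasurable B (Eventually.of_forall fun ω => by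
      rw [Real.norm_eq_abs]; exact hB ω))
    (MemLp.of_bound hv.aestronglyMeasurable C (Eventually.of_forall fun ω => by
      rw [Real.norm_eq_abs]; exact hC ω))
  rw [← Real.sqrt_eq_rpow, ← Real.sqrt_eq_rpow] at h
  have e1 : ∀ w : Ω → ℝ, ∫ ω, w ω ^ (2 : ℝ) ∂μ = ∫ ω, w ω ^ 2 ∂μ := by
    intro w
    congr 1
    funext ω
    exact Real.rpow_two (w ω)
  rw [e1, e1] at h
  exact h

theorem n12_sum_le {Ω : Type} [MeasurableSpace Ω] (μ : Measure Ω) [IsFiniteMeasure μ] (N : ℕ) (f : ℕ → Ω → ℂ)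
    (hm : ∀ r, Measurable (f r)) (hb : ∀ r, ∃ B : ℝ, ∀ ω, ‖f r ω‖ ≤ B) :
    n12 μ (fun ω => ∑ r ∈ Finset.range N, f r ω) ≤ (N : ℝ) ^ (11 / 6 : ℝ) * ∑ r ∈ Finset.range N, n12 μ (f r) := by
  have hint : ∀ r, Integrable (fun ω => ‖f r ω‖ ^ 12) μ := fun r => by
    have := a5_intg (μ := μ) (hm r) (hm r) (hb r) (hb r) 12 0
    simpa using this
  have hpt : ∀ ω, ‖∑ r ∈ Finset.range N, f r ω‖ ^ 12 ≤
      (N : ℝ) ^ 11 * ∑ r ∈ Finset.range N, ‖f r ω‖ ^ 12 := by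
    intro ω
    rcases Nat.eq_zero_or_pos N with h0 | hN
    · subst h0
      simp
    have h1 : ‖∑ r ∈ Finset.range N, f r ω‖ ^ 12 ≤ (∑ r ∈ Finset.range N, ‖f r ω‖) ^ 12 :=
      pow_le_pow_left₀ (norm_nonneg _) (norm_sum_le _ _) 12
    have h2 := pow_sum_div_card_le_sum_pow (s := Finset.range N) (f := fun r => ‖f r ω‖)
      (fun r _ => norm_nonneg _) 11
    rw [Finset.card_range, div_le_iff₀ (by positivity)] at h2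
    calc ‖∑ r ∈ Finset.range N, f r ω‖ ^ 12 ≤ (∑ r ∈ Finset.range N, ‖f r ω‖) ^ 12 := h1
      _ ≤ (∑ r ∈ Finset.range N, ‖f r ω‖ ^ 12) * (N : ℝ) ^ 11 := h2
      _ = (N : ℝ) ^ 11 * ∑ r ∈ Finset.range N, ‖f r ω‖ ^ 12 := mul_comm _ _
  have hS0 : 0 ≤ ∑ r ∈ Finset.range N, n12 μ (f r) :=
    Finset.sum_nonneg fun r _ => n12_nonneg μ (f r)
  have h3 : ∫ ω, ‖∑ r ∈ Finset.range N, f r ω‖ ^ 12 ∂μ ≤
      (N : ℝ) ^ 11 * (∑ r ∈ Finset.range N, n12 μ (f r)) ^ 6 := by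
    calc ∫ ω, ‖∑ r ∈ Finset.range N, f r ω‖ ^ 12 ∂μ ≤
        ∫ ω, (N : ℝ) ^ 11 * ∑ r ∈ Finset.range N, ‖f r ω‖ ^ 12 ∂μ := by
          refine integral_mono_of_nonneg (Eventually.of_forall fun ω => by positivity) ?_
            (Eventually.of_forall hpt)
          exact (integrable_finsetSum _ fun r _ => hint r).const_mul _
      _ = (N : ℝ) ^ 11 * ∑ r ∈ Finset.range N, ∫ ω, ‖f r ω‖ ^ 12 ∂μ := by
          rw [integral_const_mul, integral_finsetSum _ fun r _ => hint r]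
      _ = (N : ℝ) ^ 11 * ∑ r ∈ Finset.range N, n12 μ (f r) ^ 6 := by
          congr 1
          exact Finset.sum_congr rfl fun r _ => (n12_six μ (f r)).symm
      _ ≤ (N : ℝ) ^ 11 * (∑ r ∈ Finset.range N, n12 μ (f r)) ^ 6 := by
          refine mul_le_mul_of_nonneg_left ?_ (by positivity)
          have h4 : ∀ r ∈ Finset.range N, n12 μ (f r) ^ 6 ≤
              n12 μ (f r) * (∑ r ∈ Finset.range N, n12 μ (f r)) ^ 5 := by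
            intro r hr
            have h5 : n12 μ (f r) ≤ ∑ r ∈ Finset.range N, n12 μ (f r) :=
              Finset.single_le_sum (f := fun r => n12 μ (f r)) (fun i _ => n12_nonneg μ (f i)) hr
            have h6 : n12 μ (f r) ^ 5 ≤ (∑ r ∈ Finset.range N, n12 μ (f r)) ^ 5 :=
              pow_le_pow_left₀ (n12_nonneg μ _) h5 5
            calc n12 μ (f r) ^ 6 = n12 μ (f r) * n12 μ (f r) ^ 5 := by ring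
              _ ≤ n12 μ (f r) * (∑ r ∈ Finset.range N, n12 μ (f r)) ^ 5 :=
                mul_le_mul_of_nonneg_left h6 (n12_nonneg μ _)
          calc ∑ r ∈ Finset.range N, n12 μ (f r) ^ 6 ≤
              ∑ r ∈ Finset.range N, n12 μ (f r) * (∑ r ∈ Finset.range N, n12 μ (f r)) ^ 5 :=
                Finset.sum_le_sum h4
            _ = (∑ r ∈ Finset.range N, n12 μ (f r)) ^ 6 := by
                rw [← Finset.sum_mul]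
                ring
  have h0 : 0 ≤ ∫ ω, ‖∑ r ∈ Finset.range N, f r ω‖ ^ 12 ∂μ :=
    integral_nonneg fun ω => by positivity
  calc n12 μ (fun ω => ∑ r ∈ Finset.range N, f r ω)
      = (∫ ω, ‖∑ r ∈ Finset.range N, f r ω‖ ^ 12 ∂μ) ^ (1 / 6 : ℝ) := rfl
    _ ≤ ((N : ℝ) ^ 11 * (∑ r ∈ Finset.range N, n12 μ (f r)) ^ 6) ^ (1 / 6 : ℝ) :=
        Real.rpow_le_rpow h0 h3 (by norm_num)
    _ = (N : ℝ) ^ (11 / 6 : ℝ) * ∑ r ∈ Finset.range N, n12 μ (f r) := by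
        rw [Real.mul_rpow (by positivity) (by positivity), ← Real.rpow_natCast,
          ← Real.rpow_natCast, ← Real.rpow_mul (Nat.cast_nonneg _), ← Real.rpow_mul hS0]
        norm_num

/-- `∫ ‖f‖⁶ ‖g‖⁶ ≤ n12(f)³ n12(g)³` -/
theorem hold66 {Ω : Type} [MeasurableSpace Ω] (μ : Measure Ω) [IsFiniteMeasure μ] {f g : Ω → ℂ} (hf : Measurable f)
    (hg : Measurable g) (hfb : ∃ B : ℝ, ∀ ω, ‖f ω‖ ≤ B) (hgb : ∃ B : ℝ, ∀ ω, ‖g ω‖ ≤ B) :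
    ∫ ω, ‖f ω‖ ^ 6 * ‖g ω‖ ^ 6 ∂μ ≤ n12 μ f ^ 3 * n12 μ g ^ 3 := by
  obtain ⟨B, -, hB⟩ := pow_bdd hfb 6
  obtain ⟨C, -, hC⟩ := pow_bdd hgb 6
  have h := csx μ (u := fun ω => ‖f ω‖ ^ 6) (v := fun ω => ‖g ω‖ ^ 6)
    (hf.norm.pow_const 6) (hg.norm.pow_const 6)
    (fun ω => by positivity) (fun ω => by positivity)
    ⟨B, fun ω => by rw [abs_of_nonneg (by positivity)]; exact hB ω⟩
    ⟨C, fun ω => by rw [abs_of_nonneg (by positivity)]; exact hC ω⟩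
  have e1 : ∀ w : Ω → ℂ, √(∫ ω, (‖w ω‖ ^ 6) ^ 2 ∂μ) = n12 μ w ^ 3 := by
    intro w
    have e2 : ∫ ω, (‖w ω‖ ^ 6) ^ 2 ∂μ = n12 μ w ^ 6 := by
      rw [n12_six]
      congr 1
      funext ω
      ring
    have e3 : n12 μ w ^ 6 = (n12 μ w ^ 3) ^ 2 := by ring
    rw [e2, e3, Real.sqrt_sq (pow_nonneg (n12_nonneg _ _) 3)]
  rw [e1, e1] at h
  exact h

/-- `∫ ‖f‖⁶ ‖g‖⁶ ≤ √(∫ ‖f‖² ‖g‖¹⁰ · ∫ ‖g‖² ‖f‖¹⁰)` -/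
theorem hold66' {Ω : Type} [MeasurableSpace Ω] (μ : Measure Ω) [IsFiniteMeasure μ] {f g : Ω → ℂ} (hf : Measurable f)
    (hg : Measurable g) (hfb : ∃ B : ℝ, ∀ ω, ‖f ω‖ ≤ B) (hgb : ∃ B : ℝ, ∀ ω, ‖g ω‖ ≤ B) :
    ∫ ω, ‖f ω‖ ^ 6 * ‖g ω‖ ^ 6 ∂μ ≤
      √((∫ ω, ‖f ω‖ ^ 2 * ‖g ω‖ ^ 10 ∂μ) * ∫ ω, ‖g ω‖ ^ 2 * ‖f ω‖ ^ 10 ∂μ) := by
  obtain ⟨B, hB⟩ := mul_bdd hfb hgb 1 5
  obtain ⟨C, hC⟩ := mul_bdd hgb hfb 1 5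
  have h := csx μ (u := fun ω => ‖f ω‖ ^ 1 * ‖g ω‖ ^ 5) (v := fun ω => ‖g ω‖ ^ 1 * ‖f ω‖ ^ 5)
    ((hf.norm.pow_const 1).mul (hg.norm.pow_const 5)) ((hg.norm.pow_const 1).mul (hf.norm.pow_const 5))
    (fun ω => by positivity) (fun ω => by positivity) ⟨B, hB⟩ ⟨C, hC⟩
  have e0 : ∫ ω, ‖f ω‖ ^ 1 * ‖g ω‖ ^ 5 * (‖g ω‖ ^ 1 * ‖f ω‖ ^ 5) ∂μ =
      ∫ ω, ‖f ω‖ ^ 6 * ‖g ω‖ ^ 6 ∂μ := by
    congr 1
    funext ω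
    ring
  have e1 : ∫ ω, (‖f ω‖ ^ 1 * ‖g ω‖ ^ 5) ^ 2 ∂μ = ∫ ω, ‖f ω‖ ^ 2 * ‖g ω‖ ^ 10 ∂μ := by
    congr 1
    funext ω
    ring
  have e2 : ∫ ω, (‖g ω‖ ^ 1 * ‖f ω‖ ^ 5) ^ 2 ∂μ = ∫ ω, ‖g ω‖ ^ 2 * ‖f ω‖ ^ 10 ∂μ := by
    congr 1
    funext ω
    ring
  rw [e0, e1, e2] at h
  rw [Real.sqrt_mul (integral_nonneg fun ω => by positivity)]
  exact h

/-- `∫ ‖f‖² ‖g‖¹⁰ ≤ (∫ ‖f‖⁶ ‖g‖⁶)^(1/3) n12(g)⁴` -/
theorem hold210 {Ω : Type} [MeasurableSpace Ω] (μ : Measure Ω) [IsFiniteMeasure μ] {f g : Ω → ℂ} (hf : Measurable f)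
    (hg : Measurable g) (hfb : ∃ B : ℝ, ∀ ω, ‖f ω‖ ≤ B) (hgb : ∃ B : ℝ, ∀ ω, ‖g ω‖ ≤ B) :
    ∫ ω, ‖f ω‖ ^ 2 * ‖g ω‖ ^ 10 ∂μ ≤ (∫ ω, ‖f ω‖ ^ 6 * ‖g ω‖ ^ 6 ∂μ) ^ (1 / 3 : ℝ) * n12 μ g ^ 4 := by
  obtain ⟨B, hB⟩ := mul_bdd hfb hgb 2 2
  obtain ⟨C, -, hC⟩ := pow_bdd hgb 8
  have hpq : (3 : ℝ).HolderConjugate (3 / 2) := by
    rw [Real.holderConjugate_iff]
    norm_num
  have h := integral_mul_le_Lp_mul_Lq_of_nonneg (μ := μ) hpq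
    (f := fun ω => ‖f ω‖ ^ 2 * ‖g ω‖ ^ 2) (g := fun ω => ‖g ω‖ ^ 8)
    (Eventually.of_forall fun ω => by positivity) (Eventually.of_forall fun ω => by positivity)
    (MemLp.of_bound ((hf.norm.pow_const 2).mul (hg.norm.pow_const 2)).aestronglyMeasurable B
      (Eventually.of_forall fun ω => by rw [Real.norm_eq_abs]; exact hB ω))
    (MemLp.of_bound (hg.norm.pow_const 8).aestronglyMeasurable C (Eventually.of_forall fun ω => by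
      rw [Real.norm_eq_abs, abs_of_nonneg (by positivity)]; exact hC ω))
  have e0 : ∫ ω, ‖f ω‖ ^ 2 * ‖g ω‖ ^ 2 * ‖g ω‖ ^ 8 ∂μ = ∫ ω, ‖f ω‖ ^ 2 * ‖g ω‖ ^ 10 ∂μ := by
    congr 1
    funext ω
    ring
  have e1 : ∫ ω, (‖f ω‖ ^ 2 * ‖g ω‖ ^ 2) ^ (3 : ℝ) ∂μ = ∫ ω, ‖f ω‖ ^ 6 * ‖g ω‖ ^ 6 ∂μ := by
    congr 1
    funext ω
    have e3 : (3 : ℝ) = ((3 : ℕ) : ℝ) := by norm_num
    rw [e3, Real.rpow_natCast]
    ring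
  have e2 : ∫ ω, (‖g ω‖ ^ 8) ^ (3 / 2 : ℝ) ∂μ = ∫ ω, ‖g ω‖ ^ 12 ∂μ := by
    congr 1
    funext ω
    rw [← Real.rpow_natCast, ← Real.rpow_natCast, ← Real.rpow_mul (norm_nonneg _)]
    norm_num
  have hg0 : 0 ≤ ∫ ω, ‖g ω‖ ^ 12 ∂μ := integral_nonneg fun ω => by positivity
  have e3 : n12 μ g ^ 4 = (∫ ω, ‖g ω‖ ^ 12 ∂μ) ^ (1 / (3 / 2) : ℝ) := by
    unfold n12
    rw [← Real.rpow_natCast, ← Real.rpow_mul hg0]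
    norm_num
  rw [e0, e1, e2, ← e3] at h
  exact h

end Pool.Agent.Helper60.DC
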