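import Pool.Agent.Helper60.DC.D1

/-!
# DC-D2: the orthogonality step of type (2, 10)
-/

open MeasureTheory Real Set Filter Topology

set_option autoImplicit false

namespace Pool.Agent.Helper60.DC

open Pool.Agent.Helper22.AC

open Classical in
private lemma count3 (N r : ℕ) :
    ((Finset.range N).filter (fun r' => ¬ sep r r')).card ≤ 3 := by
  refine (Finset.card_le_card (t := {r - 1, r, r + 1}) ?_).trans Finset.card_le_three
  intro r' hr'
  rw [Finset.mem_filter] at hr'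
  have h := hr'.2
  unfold sep at h
  simp only [Finset.mem_insert, Finset.mem_singleton]
  omega

open Classical in
private lemma sum_sep3 (N : ℕ) (I : ℕ → ℝ) (hI : ∀ r, 0 ≤ I r) :
    ∑ r ∈ Finset.range N, ∑ r' ∈ Finset.range N,
      (if sep r r' then 0 else (I r + I r') / 2) ≤ 3 * ∑ r ∈ Finset.range N, I r := by
  have h1 : ∀ r ∈ Finset.range N, ∑ r' ∈ Finset.range N, (if sep r r' then 0 else I r) ≤
      3 * I r := by
    intro r _
    have e0 : ∑ r' ∈ Finset.range N, (if sep r r' then 0 else I r) =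
        ∑ r' ∈ (Finset.range N).filter (fun r' => ¬ sep r r'), I r := by
      rw [Finset.sum_filter]
      apply Finset.sum_congr rfl
      intro r' _
      by_cases hs : sep r r'
      · rw [if_pos hs, if_neg (not_not.2 hs)]
      · rw [if_neg hs, if_pos hs]
    rw [e0, Finset.sum_const, nsmul_eq_mul]
    refine mul_le_mul_of_nonneg_right ?_ (hI r)
    exact_mod_cast count3 N r
  have h2 : ∑ r ∈ Finset.range N, ∑ r' ∈ Finset.range N, (if sep r r' then 0 else I r) ≤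
      3 * ∑ r ∈ Finset.range N, I r := by
    rw [Finset.mul_sum]
    exact Finset.sum_le_sum h1
  have h3 : ∑ r ∈ Finset.range N, ∑ r' ∈ Finset.range N, (if sep r r' then 0 else I r') =
      ∑ r ∈ Finset.range N, ∑ r' ∈ Finset.range N, (if sep r r' then 0 else I r) := by
    rw [Finset.sum_comm]
    apply Finset.sum_congr rfl
    intro r _
    apply Finset.sum_congr rfl
    intro r' _
    have : sep r' r ↔ sep r r' := by unfold sep; exact Or.comm
    simp only [this]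
  have h4 : ∀ r r', (if sep r r' then 0 else (I r + I r') / 2) =
      (1 / 2 : ℝ) * (if sep r r' then 0 else I r) + (1 / 2) * (if sep r r' then 0 else I r') := by
    intro r r'
    split_ifs <;> ring
  simp only [h4, Finset.sum_add_distrib, ← Finset.mul_sum]
  rw [h3]
  linarith

/-- almost orthogonality with a weight: only neighbours interact -/
theorem orth_expand {Ω : Type} [MeasurableSpace Ω] {μ : Measure Ω} [IsFiniteMeasure μ] (N : ℕ) (Z : ℕ → Ω → ℂ)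
    (W : Ω → ℝ) (hZm : ∀ r, Measurable (Z r)) (hZb : ∀ r, ∃ B : ℝ, ∀ ω, ‖Z r ω‖ ≤ B) (hWm : Measurable W)
    (hW0 : ∀ ω, 0 ≤ W ω) (hWb : ∃ B : ℝ, ∀ ω, W ω ≤ B)
    (ho : ∀ r < N, ∀ r' < N, sep r r' → ∫ ω, Z r ω * (starRingEnd ℂ) (Z r' ω) * ((W ω : ℝ) : ℂ) ∂μ = 0) :
    ∫ ω, ‖∑ r ∈ Finset.range N, Z r ω‖ ^ 2 * W ω ∂μ ≤ 3 * ∑ r ∈ Finset.range N, ∫ ω, ‖Z r ω‖ ^ 2 * W ω ∂μ := by
  classical
  choose BZ hBZ using hZb
  obtain ⟨BW, hBW⟩ := hWb
  have hFi : ∀ r r', Integrable (fun ω => Z r ω * (starRingEnd ℂ) (Z r' ω) * ((W ω : ℝ) : ℂ)) μ := by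
    intro r r'
    refine Integrable.of_bound (((hZm r).mul (Complex.continuous_conj.measurable.comp (hZm r'))).mul
      (Complex.measurable_ofReal.comp hWm)).aestronglyMeasurable (|BZ r| * |BZ r'| * |BW|)
      (Filter.Eventually.of_forall fun ω => ?_)
    rw [norm_mul, norm_mul, RCLike.norm_conj, Complex.norm_real, Real.norm_eq_abs,
      abs_of_nonneg (hW0 ω)]
    have e1 : ‖Z r ω‖ ≤ |BZ r| := (hBZ r ω).trans (le_abs_self _)
    have e2 : ‖Z r' ω‖ ≤ |BZ r'| := (hBZ r' ω).trans (le_abs_self _)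
    have e3 : W ω ≤ |BW| := (hBW ω).trans (le_abs_self _)
    exact mul_le_mul (mul_le_mul e1 e2 (norm_nonneg _) (abs_nonneg _)) e3 (hW0 ω)
      (mul_nonneg (abs_nonneg _) (abs_nonneg _))
  have hIi : ∀ r, Integrable (fun ω => ‖Z r ω‖ ^ 2 * W ω) μ := by
    intro r
    refine Integrable.of_bound (((hZm r).norm.pow_const 2).mul hWm).aestronglyMeasurable (|BZ r| ^ 2 * |BW|)
      (Filter.Eventually.of_forall fun ω => ?_)
    rw [Real.norm_eq_abs, abs_of_nonneg (mul_nonneg (by positivity) (hW0 ω))]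
    have e1 : ‖Z r ω‖ ≤ |BZ r| := (hBZ r ω).trans (le_abs_self _)
    have e3 : W ω ≤ |BW| := (hBW ω).trans (le_abs_self _)
    exact mul_le_mul (pow_le_pow_left₀ (norm_nonneg _) e1 2) e3 (hW0 ω) (by positivity)
  have hexp : ((∫ ω, ‖∑ r ∈ Finset.range N, Z r ω‖ ^ 2 * W ω ∂μ : ℝ) : ℂ) =
      ∑ r ∈ Finset.range N, ∑ r' ∈ Finset.range N,
        ∫ ω, Z r ω * (starRingEnd ℂ) (Z r' ω) * ((W ω : ℝ) : ℂ) ∂μ := by
    rw [← integral_complex_ofReal]
    have e1 : ∀ ω, ((‖∑ r ∈ Finset.range N, Z r ω‖ ^ 2 * W ω : ℝ) : ℂ) =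
        ∑ r ∈ Finset.range N, ∑ r' ∈ Finset.range N,
          Z r ω * (starRingEnd ℂ) (Z r' ω) * ((W ω : ℝ) : ℂ) := by
      intro ω
      have e3 : ∀ z : ℂ, ((‖z‖ ^ 2 : ℝ) : ℂ) = z * (starRingEnd ℂ) z := by
        intro z
        rw [Complex.mul_conj, Complex.normSq_eq_norm_sq]
      rw [Complex.ofReal_mul, e3, map_sum, Finset.sum_mul_sum, Finset.sum_mul]
      apply Finset.sum_congr rfl
      intro r _
      rw [Finset.sum_mul]
    simp only [e1]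
    rw [integral_finsetSum _ (fun r _ => integrable_finsetSum _ (fun r' _ => hFi r r'))]
    apply Finset.sum_congr rfl
    intro r _
    rw [integral_finsetSum _ (fun r' _ => hFi r r')]
  have hre : ∫ ω, ‖∑ r ∈ Finset.range N, Z r ω‖ ^ 2 * W ω ∂μ =
      ∑ r ∈ Finset.range N, ∑ r' ∈ Finset.range N,
        (∫ ω, Z r ω * (starRingEnd ℂ) (Z r' ω) * ((W ω : ℝ) : ℂ) ∂μ).re := by
    have := congrArg Complex.re hexp
    rw [Complex.ofReal_re, Complex.re_sum] at this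
    rw [this]
    apply Finset.sum_congr rfl
    intro r _
    rw [Complex.re_sum]
  obtain ⟨I, hI⟩ : ∃ I : ℕ → ℝ, ∀ r, I r = ∫ ω, ‖Z r ω‖ ^ 2 * W ω ∂μ := ⟨_, fun _ => rfl⟩
  have hI0 : ∀ r, 0 ≤ I r := fun r => by
    rw [hI]
    exact integral_nonneg (fun ω => mul_nonneg (by positivity) (hW0 ω))
  have hterm : ∀ r ∈ Finset.range N, ∀ r' ∈ Finset.range N,
      (∫ ω, Z r ω * (starRingEnd ℂ) (Z r' ω) * ((W ω : ℝ) : ℂ) ∂μ).re ≤
        if sep r r' then 0 else (I r + I r') / 2 := by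
    intro r hr r' hr'
    rw [Finset.mem_range] at hr hr'
    split_ifs with hs
    · rw [ho r hr r' hr' hs]
      simp
    · calc (∫ ω, Z r ω * (starRingEnd ℂ) (Z r' ω) * ((W ω : ℝ) : ℂ) ∂μ).re
          ≤ ‖∫ ω, Z r ω * (starRingEnd ℂ) (Z r' ω) * ((W ω : ℝ) : ℂ) ∂μ‖ := Complex.re_le_norm _
        _ ≤ ∫ ω, ‖Z r ω * (starRingEnd ℂ) (Z r' ω) * ((W ω : ℝ) : ℂ)‖ ∂μ :=
            norm_integral_le_integral_norm _
        _ ≤ ∫ ω, ((1 / 2) * (‖Z r ω‖ ^ 2 * W ω) + (1 / 2) * (‖Z r' ω‖ ^ 2 * W ω)) ∂μ := by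
            refine integral_mono (hFi r r').norm
              (((hIi r).const_mul _).add ((hIi r').const_mul _)) (fun ω => ?_)
            simp only
            rw [norm_mul, norm_mul, RCLike.norm_conj, Complex.norm_real, Real.norm_eq_abs,
              abs_of_nonneg (hW0 ω)]
            have e1 : ‖Z r ω‖ * ‖Z r' ω‖ ≤ 1 / 2 * ‖Z r ω‖ ^ 2 + 1 / 2 * ‖Z r' ω‖ ^ 2 := by
              nlinarith [sq_nonneg (‖Z r ω‖ - ‖Z r' ω‖)]
            calc ‖Z r ω‖ * ‖Z r' ω‖ * W ω ≤ (1 / 2 * ‖Z r ω‖ ^ 2 + 1 / 2 * ‖Z r' ω‖ ^ 2) * W ω :=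
                  mul_le_mul_of_nonneg_right e1 (hW0 ω)
              _ = _ := by ring
        _ = (I r + I r') / 2 := by
            rw [integral_add ((hIi r).const_mul _) ((hIi r').const_mul _), integral_const_mul,
              integral_const_mul, hI, hI]
            ring
  rw [hre]
  have hfin : ∑ r ∈ Finset.range N, ∫ ω, ‖Z r ω‖ ^ 2 * W ω ∂μ = ∑ r ∈ Finset.range N, I r :=
    Finset.sum_congr rfl fun r _ => (hI r).symm
  rw [hfin]
  calc ∑ r ∈ Finset.range N, ∑ r' ∈ Finset.range N,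
        (∫ ω, Z r ω * (starRingEnd ℂ) (Z r' ω) * ((W ω : ℝ) : ℂ) ∂μ).re
      ≤ ∑ r ∈ Finset.range N, ∑ r' ∈ Finset.range N,
          (if sep r r' then 0 else (I r + I r') / 2) :=
        Finset.sum_le_sum (fun r hr => Finset.sum_le_sum (fun r' hr' => hterm r hr r' hr'))
    _ ≤ 3 * ∑ r ∈ Finset.range N, I r := sum_sep3 _ I hI0

theorem bil1_key {Ω : Type} [MeasurableSpace Ω] {μ : Measure Ω} [IsFiniteMeasure μ] {M m : ℕ} {g : ℕ → ℕ → Ω → ℂ}
    (hg : Sys3 μ M m g) {a b b₁ c : ℕ} {A : ℝ} (hc : c + 1 ≤ 3 * b) (hb : b₁ ≤ c)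
    (h1 : a + 1 + b ≤ m) (h2 : a + 1 + c ≤ m) (h : Bil1 μ M m g a c b A) : Bil1 μ M m g a b₁ b (3 * A) := by
  intro i hi j hj hij hsep
  obtain ⟨t, rfl⟩ : ∃ t, c = b₁ + t := ⟨c - b₁, by omega⟩
  have hst : a + 1 + b₁ + t = a + 1 + (b₁ + t) := by ring
  have hlt : ∀ r, r < M ^ t → M ^ t * i + r < M ^ (a + 1 + (b₁ + t)) := by
    intro r hr
    rw [← hst]
    exact desc_lt hi hr
  have hdiv : ∀ r, r < M ^ t → (M ^ t * i + r) / M ^ (b₁ + t) = i / M ^ b₁ := by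
    intro r hr
    rw [add_comm b₁ t, pow_add, ← Nat.div_div_eq_div_mul, desc_div hr]
  have hdiv1 : ∀ r, r < M ^ t → (M ^ t * i + r) / M ^ (b₁ + t + 1) = i / M ^ (b₁ + 1) := by
    intro r hr
    have : b₁ + t + 1 = t + (b₁ + 1) := by ring
    rw [this, pow_add, ← Nat.div_div_eq_div_mul, desc_div hr]
  have hWb : ∃ B : ℝ, ∀ ω, ‖g (a + 1 + b) j ω‖ ^ 10 ≤ B := by
    obtain ⟨B, hB⟩ := hg.bdd (a + 1 + b) j
    exact ⟨B ^ 10, fun ω => pow_le_pow_left₀ (norm_nonneg _) (hB ω) 10⟩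
  have hmain := orth_expand (μ := μ) (M ^ t) (fun r => g (a + 1 + (b₁ + t)) (M ^ t * i + r))
    (fun ω => ‖g (a + 1 + b) j ω‖ ^ 10) (fun r => hg.meas _ _) (fun r => hg.bdd _ _)
    ((hg.meas _ _).norm.pow_const 10) (fun ω => by positivity) hWb
    (fun r hr r' hr' hs => hg.orth1 a b (b₁ + t) hc h1 h2 j hj _ (hlt r hr) _ (hlt r' hr')
        (by rw [hdiv1 r hr, hij]) (by rw [hdiv r hr, hdiv r' hr']) (by rw [hdiv r hr]; exact hsep)
        (by unfold sep at hs ⊢; omega))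
  have e1 : ∫ ω, ‖g (a + 1 + b₁) i ω‖ ^ 2 * ‖g (a + 1 + b) j ω‖ ^ 10 ∂μ =
      ∫ ω, ‖∑ r ∈ Finset.range (M ^ t), g (a + 1 + (b₁ + t)) (M ^ t * i + r) ω‖ ^ 2 *
        ‖g (a + 1 + b) j ω‖ ^ 10 ∂μ := by
    congr 1
    funext ω
    rw [desc_sum3 hg (s := a + 1 + b₁) (t := t) (by omega) hi ω, hst]
  rw [e1]
  refine hmain.trans ?_
  calc 3 * ∑ r ∈ Finset.range (M ^ t), ∫ ω, ‖g (a + 1 + (b₁ + t)) (M ^ t * i + r) ω‖ ^ 2 *
          ‖g (a + 1 + b) j ω‖ ^ 10 ∂μ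
      ≤ 3 * ∑ r ∈ Finset.range (M ^ t), A * S3 μ M m g (a + 1 + (b₁ + t)) (M ^ t * i + r) *
          S3 μ M m g (a + 1 + b) j ^ 5 := by
        refine mul_le_mul_of_nonneg_left (Finset.sum_le_sum fun r hr => ?_) (by norm_num)
        rw [Finset.mem_range] at hr
        exact h _ (hlt r hr) j hj (by rw [hdiv1 r hr, hij]) (by rw [hdiv r hr]; exact hsep)
    _ = 3 * A * S3 μ M m g (a + 1 + b₁) i * S3 μ M m g (a + 1 + b) j ^ 5 := by
        rw [S3_split μ M m g (s := a + 1 + b₁) (t := t) i (by omega), ← Finset.sum_mul,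
          ← Finset.mul_sum, hst]
        ring

end Pool.Agent.Helper60.DC
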