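import Pool.Agent.Helper60.DC.D2

/-!
# DC-D3: the step of type (6, 6): decoupling of order six for the measure `‖g_J‖⁶ dμ`
-/

open MeasureTheory Real Set Filter Topology
open scoped NNReal ENNReal

set_option autoImplicit false

namespace Pool.Agent.Helper60.DC

open Pool.Agent.Helper22.AC

/-- the measure `‖G‖⁶ dμ` -/
noncomputable def wm {Ω : Type} [MeasurableSpace Ω] (μ : Measure Ω) (G : Ω → ℂ) : Measure Ω :=
  μ.withDensity (fun ω => ((‖G ω‖₊ ^ 6 : ℝ≥0) : ℝ≥0∞))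

theorem int_wm {Ω : Type} [MeasurableSpace Ω] {μ : Measure Ω} {G : Ω → ℂ} (hG : Measurable G) {E : Type*}
    [NormedAddCommGroup E] [NormedSpace ℝ E] (F : Ω → E) :
    ∫ ω, F ω ∂(wm μ G) = ∫ ω, (‖G ω‖ ^ 6 : ℝ) • F ω ∂μ := by
  unfold wm
  rw [integral_withDensity_eq_integral_smul (f := fun ω => ‖G ω‖₊ ^ 6) (hG.nnnorm.pow_const 6) F]
  congr 1

theorem fin_wm {Ω : Type} [MeasurableSpace Ω] {μ : Measure Ω} [IsFiniteMeasure μ] {G : Ω → ℂ}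
    (hb : ∃ B : ℝ, ∀ ω, ‖G ω‖ ≤ B) : IsFiniteMeasure (wm μ G) := by
  obtain ⟨B, hB⟩ := hb
  unfold wm
  apply isFiniteMeasure_withDensity
  have h1 : ∫⁻ ω, ((‖G ω‖₊ ^ 6 : ℝ≥0) : ℝ≥0∞) ∂μ ≤ ∫⁻ _, (((Real.toNNReal B) ^ 6 : ℝ≥0) : ℝ≥0∞) ∂μ := by
    apply lintegral_mono
    intro ω
    change ((‖G ω‖₊ ^ 6 : ℝ≥0) : ℝ≥0∞) ≤ (((Real.toNNReal B) ^ 6 : ℝ≥0) : ℝ≥0∞)
    have h2 : ‖G ω‖₊ ≤ Real.toNNReal B := by
      rw [← NNReal.coe_le_coe, coe_nnnorm]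
      exact (hB ω).trans (Real.le_coe_toNNReal B)
    have h3 : ‖G ω‖₊ ^ 6 ≤ (Real.toNNReal B) ^ 6 := pow_le_pow_left₀ (zero_le) h2 6
    exact_mod_cast h3
  refine ne_top_of_le_ne_top ?_ h1
  rw [lintegral_const]
  exact ENNReal.mul_ne_top ENNReal.coe_ne_top (measure_ne_top μ _)

private theorem idx_div {M p q i x : ℕ} (hM : 0 < M) : (M ^ (p + q) * i + x) / M ^ q = M ^ p * i + x / M ^ q := by
  have e : M ^ (p + q) * i = M ^ q * (M ^ p * i) := by rw [pow_add]; ring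
  rw [e, Nat.mul_add_div (pow_pos hM q)]

theorem sub_sys {Ω : Type} [MeasurableSpace Ω] {μ : Measure Ω} [IsFiniteMeasure μ] {M m : ℕ} {g : ℕ → ℕ → Ω → ℂ}
    (hg : Sys3 μ M m g) (hM : 1 ≤ M) {a b b₁ i j : ℕ} (hb : b₁ ≤ b) (hm : a + 1 + (b + 1) ≤ m)
    (hi : i < M ^ (a + 1 + b₁)) (hj : j < M ^ (a + 1 + (b + 1))) (hij : i / M ^ (b₁ + 1) = j / M ^ (b + 1 + 1))
    (hs : sep (i / M ^ b₁) (j / M ^ (b + 1))) :
    Sys (wm μ (g (a + 1 + (b + 1)) j)) M (b - b₁) (fun s r => g (a + 1 + b₁ + s) (M ^ s * i + r)) := by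
  have hMp : 0 < M := hM
  refine ⟨fun s r => hg.meas _ _, fun s r => hg.bdd _ _, ?_, ?_⟩
  · intro s hs' r hr ω
    have h1 := hg.add (a + 1 + b₁ + s) (by omega) (M ^ s * i + r) (desc_lt hi hr) ω
    rw [h1]
    refine Finset.sum_congr rfl fun r' _ => ?_
    have e1 : M * (M ^ s * i + r) + r' = M ^ (s + 1) * i + (M * r + r') := by rw [pow_succ]; ring
    rw [e1]
    rfl
  · intro a' b' c' hbc hb' hc' k hk i1 hi1 i2 hi2 hki hii hsep hsep'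
    have eA : ∀ t, a + 1 + b₁ + (a' + 1 + t) = (a + 1 + b₁ + a') + 1 + t := fun t => by ring
    have h := hg.orth2 a (b + 1) (a + 1 + b₁ + a') b' c' (by omega) hbc (by omega) (by omega) hm j hj
      (M ^ (a' + 1 + b') * i + k) (by rw [← eA]; exact desc_lt hi hk)
      (M ^ (a' + 1 + c') * i + i1) (by rw [← eA]; exact desc_lt hi hi1)
      (M ^ (a' + 1 + c') * i + i2) (by rw [← eA]; exact desc_lt hi hi2)
    have q1 : ∀ t x, (M ^ (a' + 1 + t) * i + x) / M ^ (t + 1) = M ^ a' * i + x / M ^ (t + 1) := by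
      intro t x
      have e : a' + 1 + t = a' + (t + 1) := by ring
      rw [e, idx_div hMp]
    have q2 : ∀ t x, (M ^ (a' + 1 + t) * i + x) / M ^ t = M ^ (a' + 1) * i + x / M ^ t := by
      intro t x
      rw [idx_div hMp]
    have q3 : ∀ t x, x < M ^ (a' + 1 + t) → x / M ^ (t + 1) < M ^ a' := by
      intro t x hx
      apply Nat.div_lt_of_lt_mul
      have e : M ^ (t + 1) * M ^ a' = M ^ (a' + 1 + t) := by rw [← pow_add]; congr 1; ring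
      rw [e]
      exact hx
    have q4 : (M ^ a' * i + i1 / M ^ (c' + 1)) / M ^ a' = i := desc_div (q3 c' i1 hi1)
    have h' := h (by rw [q1, q1, hki]) (by rw [q2, q2, hii])
      (by
        rw [q2, q2]
        unfold sep at hsep ⊢
        omega)
      (by
        unfold sep at hsep' ⊢
        omega)
      (by
        rw [q1]
        have e : a + 1 + b₁ + a' - a = a' + (b₁ + 1) := by omega
        rw [e, pow_add M a' (b₁ + 1), ← Nat.div_div_eq_div_mul, q4, hij])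
      (by
        rw [q1]
        have e : a + 1 + b₁ + a' - (a + 1) = a' + b₁ := by omega
        rw [e, pow_add M a' b₁, ← Nat.div_div_eq_div_mul, q4]
        exact hs)
    rw [int_wm (hg.meas _ _)]
    rw [← h']
    congr 1
    funext ω
    simp only [eA]
    rw [Complex.real_smul]
    push_cast
    ring

theorem bil2_key {Ω : Type} [MeasurableSpace Ω] {μ : Measure Ω} [IsFiniteMeasure μ] {M m : ℕ} {g : ℕ → ℕ → Ω → ℂ}
    {C6 e6 : ℝ} (hC6 : 0 ≤ C6)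
    (h6 : ∀ (Ω : Type) [MeasurableSpace Ω] (μ : Measure Ω) [IsFiniteMeasure μ] (m : ℕ) (g : ℕ → ℕ → Ω → ℂ), Sys μ M m g →
      n6 μ (g 0 0) ≤ C6 * (M : ℝ) ^ (e6 * (m : ℝ)) * ∑ r ∈ Finset.range (M ^ m), n6 μ (g m r))
    (hg : Sys3 μ M m g) (hM : 1 ≤ M) {a b b₁ : ℕ} {A : ℝ} (hA : 0 ≤ A) (hb : b₁ ≤ b) (hm : a + 1 + (b + 1) ≤ m)
    (h : Bil2 μ M m g a b (b + 1) A) :
    Bil2 μ M m g a b₁ (b + 1) ((C6 * (M : ℝ) ^ (e6 * ((b : ℝ) - b₁))) ^ 3 * A) := by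
  intro i hi j hj hij hs
  set G : Ω → ℂ := g (a + 1 + (b + 1)) j with hG
  have hGm : Measurable G := hg.meas _ _
  have hfin : IsFiniteMeasure (wm μ G) := fin_wm (hg.bdd _ _)
  have hsub := sub_sys hg hM hb hm hi hj hij hs
  have hdec := h6 Ω (wm μ G) (b - b₁) _ hsub
  simp only [add_zero, pow_zero, one_mul] at hdec
  obtain ⟨t, ht⟩ : ∃ t, b = b₁ + t := ⟨b - b₁, by omega⟩
  have hbt : b - b₁ = t := by omega
  have hbtr : (b : ℝ) - b₁ = t := by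
    rw [ht]
    push_cast
    ring
  rw [hbt] at hdec
  rw [hbtr]
  have hMp : (0 : ℝ) < M := by exact_mod_cast hM
  have hlev : a + 1 + b₁ + t = a + 1 + b := by omega
  rw [hlev] at hdec
  set S : ℝ := S3 μ M m g (a + 1 + (b + 1)) j with hS
  have hS0 : 0 ≤ S := S3_nonneg _ _ _ _ _ _
  have hterm : ∀ r ∈ Finset.range (M ^ t), n6 (wm μ G) (g (a + 1 + b) (M ^ t * i + r)) ≤
      A ^ (1 / 3 : ℝ) * S3 μ M m g (a + 1 + b) (M ^ t * i + r) * S := by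
    intro r hr
    rw [Finset.mem_range] at hr
    have hr' : M ^ t * i + r < M ^ (a + 1 + b) := by
      rw [← hlev]
      exact desc_lt hi hr
    have hq0 : (M ^ t * i + r) / M ^ b = i / M ^ b₁ := by
      rw [ht, add_comm b₁ t, pow_add, ← Nat.div_div_eq_div_mul, desc_div hr]
    have hq1 : (M ^ t * i + r) / M ^ (b + 1) = i / M ^ (b₁ + 1) := by
      have e : b + 1 = t + (b₁ + 1) := by omega
      rw [e, pow_add, ← Nat.div_div_eq_div_mul, desc_div hr]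
    have h1 := h _ hr' j hj (by rw [hq1, hij]) (by rw [hq0]; exact hs)
    have h2 : n6 (wm μ G) (g (a + 1 + b) (M ^ t * i + r)) =
        (∫ ω, ‖g (a + 1 + b) (M ^ t * i + r) ω‖ ^ 6 * ‖G ω‖ ^ 6 ∂μ) ^ (1 / 3 : ℝ) := by
      unfold n6
      rw [int_wm hGm]
      congr 2
      funext ω
      rw [smul_eq_mul, mul_comm]
    have hSr : 0 ≤ S3 μ M m g (a + 1 + b) (M ^ t * i + r) := S3_nonneg _ _ _ _ _ _
    rw [h2]
    refine (Real.rpow_le_rpow (integral_nonneg fun ω => by positivity) h1 (by norm_num)).trans (le_of_eq ?_)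
    have e1 : A * S3 μ M m g (a + 1 + b) (M ^ t * i + r) ^ 3 * S3 μ M m g (a + 1 + (b + 1)) j ^ 3 =
        A * (S3 μ M m g (a + 1 + b) (M ^ t * i + r) * S) ^ 3 := by
      rw [hS]
      ring
    rw [e1, Real.mul_rpow hA (by positivity), ← Real.rpow_natCast, ← Real.rpow_mul (by positivity)]
    norm_num
    ring
  have hsum : ∑ r ∈ Finset.range (M ^ t), n6 (wm μ G) (g (a + 1 + b) (M ^ t * i + r)) ≤
      A ^ (1 / 3 : ℝ) * S3 μ M m g (a + 1 + b₁) i * S := by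
    refine (Finset.sum_le_sum hterm).trans (le_of_eq ?_)
    rw [← Finset.sum_mul, ← Finset.mul_sum, S3_split μ M m g (s := a + 1 + b₁) (t := t) i (by omega), hlev]
  have hn : n6 (wm μ G) (g (a + 1 + b₁) i) ≤
      C6 * (M : ℝ) ^ (e6 * (t : ℝ)) * (A ^ (1 / 3 : ℝ) * S3 μ M m g (a + 1 + b₁) i * S) :=
    hdec.trans (mul_le_mul_of_nonneg_left hsum (by positivity))
  have h3 : ∫ ω, ‖g (a + 1 + b₁) i ω‖ ^ 6 * ‖G ω‖ ^ 6 ∂μ = n6 (wm μ G) (g (a + 1 + b₁) i) ^ 3 := by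
    rw [n6_cube, int_wm hGm]
    congr 1
    funext ω
    rw [smul_eq_mul, mul_comm]
  rw [h3]
  refine (pow_le_pow_left₀ (n6_nonneg _ _) hn 3).trans (le_of_eq ?_)
  have e2 : (A ^ (1 / 3 : ℝ)) ^ 3 = A := by
    rw [← Real.rpow_natCast, ← Real.rpow_mul hA]
    norm_num
  calc (C6 * (M : ℝ) ^ (e6 * (t : ℝ)) * (A ^ (1 / 3 : ℝ) * S3 μ M m g (a + 1 + b₁) i * S)) ^ 3
      = (C6 * (M : ℝ) ^ (e6 * (t : ℝ))) ^ 3 * (A ^ (1 / 3 : ℝ)) ^ 3 * S3 μ M m g (a + 1 + b₁) i ^ 3 * S ^ 3 := by ring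
    _ = _ := by rw [e2]

/-- one more level for one of the two factors -/
theorem bil2_down {Ω : Type} [MeasurableSpace Ω] {μ : Measure Ω} [IsFiniteMeasure μ] {M m : ℕ} {g : ℕ → ℕ → Ω → ℂ}
    (hg : Sys3 μ M m g) {a b b₂ : ℕ} {A : ℝ} (hA : 0 ≤ A) (hm : a + 1 + (b + 1) ≤ m)
    (h : Bil2 μ M m g a (b + 1) b₂ A) : Bil2 μ M m g a b b₂ ((M : ℝ) ^ 5 * A) := by
  intro i hi j hj hij hs
  have hlt : ∀ r < M, M * i + r < M ^ (a + 1 + (b + 1)) := by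
    intro r hr
    have := desc_lt (M := M) (s := a + 1 + b) (t := 1) (j := i) (r := r) hi (by rwa [pow_one])
    rw [pow_one] at this
    exact this
  have hq : ∀ r < M, ∀ u, (M * i + r) / M ^ (u + 1) = i / M ^ u := by
    intro r hr u
    have h1 := desc_div (M := M) (t := 1) (j := i) (r := r) (by rwa [pow_one])
    rw [pow_one] at h1
    rw [add_comm u 1, pow_add, pow_one, ← Nat.div_div_eq_div_mul, h1]
  have hint : ∀ s k s' k', Integrable (fun ω => ‖g s k ω‖ ^ 6 * ‖g s' k' ω‖ ^ 6) μ := fun s k s' k' =>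
    intg3 (hg.meas s k) (hg.meas s' k') (hg.bdd s k) (hg.bdd s' k') 6 6
  have hpt : ∀ ω, ‖g (a + 1 + b) i ω‖ ^ 6 * ‖g (a + 1 + b₂) j ω‖ ^ 6 ≤
      (M : ℝ) ^ 5 * ∑ r ∈ Finset.range M, ‖g (a + 1 + (b + 1)) (M * i + r) ω‖ ^ 6 * ‖g (a + 1 + b₂) j ω‖ ^ 6 := by
    intro ω
    rw [hg.add (a + 1 + b) (by omega) i hi ω, ← Finset.sum_mul, ← mul_assoc]
    refine mul_le_mul_of_nonneg_right ?_ (by positivity)
    rcases Nat.eq_zero_or_pos M with h0 | hM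
    · subst h0
      simp
    have h1 : ‖∑ r ∈ Finset.range M, g (a + 1 + b + 1) (M * i + r) ω‖ ^ 6 ≤
        (∑ r ∈ Finset.range M, ‖g (a + 1 + b + 1) (M * i + r) ω‖) ^ 6 :=
      pow_le_pow_left₀ (norm_nonneg _) (norm_sum_le _ _) 6
    have h2 := pow_sum_div_card_le_sum_pow (s := Finset.range M) (f := fun r => ‖g (a + 1 + b + 1) (M * i + r) ω‖)
      (fun r _ => norm_nonneg _) 5
    rw [Finset.card_range, div_le_iff₀ (by positivity)] at h2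
    calc _ ≤ _ := h1
      _ ≤ _ := h2
      _ = _ := by rw [mul_comm]; rfl
  have h1 : ∫ ω, ‖g (a + 1 + b) i ω‖ ^ 6 * ‖g (a + 1 + b₂) j ω‖ ^ 6 ∂μ ≤
      (M : ℝ) ^ 5 * ∑ r ∈ Finset.range M,
        ∫ ω, ‖g (a + 1 + (b + 1)) (M * i + r) ω‖ ^ 6 * ‖g (a + 1 + b₂) j ω‖ ^ 6 ∂μ := by
    refine (integral_mono (hint _ _ _ _) ?_ hpt).trans (le_of_eq ?_)
    · exact (integrable_finsetSum _ fun r _ => hint _ _ _ _).const_mul _
    · rw [integral_const_mul, integral_finsetSum _ fun r _ => hint _ _ _ _]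
  refine h1.trans ?_
  have h2 : ∀ r ∈ Finset.range M, ∫ ω, ‖g (a + 1 + (b + 1)) (M * i + r) ω‖ ^ 6 * ‖g (a + 1 + b₂) j ω‖ ^ 6 ∂μ ≤
      A * S3 μ M m g (a + 1 + (b + 1)) (M * i + r) ^ 3 * S3 μ M m g (a + 1 + b₂) j ^ 3 := by
    intro r hr
    rw [Finset.mem_range] at hr
    exact h _ (hlt r hr) j hj (by rw [hq r hr, hij]) (by rw [hq r hr]; exact hs)
  have hsp := S3_split μ M m g (s := a + 1 + b) (t := 1) i (by omega)
  rw [pow_one] at hsp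
  have hS0 : ∀ s k, 0 ≤ S3 μ M m g s k := fun s k => S3_nonneg μ M m g s k
  have h3 : ∑ r ∈ Finset.range M, S3 μ M m g (a + 1 + (b + 1)) (M * i + r) ^ 3 ≤ S3 μ M m g (a + 1 + b) i ^ 3 := by
    rw [hsp]
    set x : ℕ → ℝ := fun r => S3 μ M m g (a + 1 + (b + 1)) (M * i + r) with hx
    have hx0 : ∀ r, 0 ≤ x r := fun r => hS0 _ _
    calc ∑ r ∈ Finset.range M, x r ^ 3 ≤ ∑ r ∈ Finset.range M, x r * (∑ r ∈ Finset.range M, x r) ^ 2 := by
          refine Finset.sum_le_sum fun r hr => ?_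
          have h4 : x r ≤ ∑ r ∈ Finset.range M, x r := Finset.single_le_sum (f := x) (fun r _ => hx0 r) hr
          have h5 : x r ^ 2 ≤ (∑ r ∈ Finset.range M, x r) ^ 2 := pow_le_pow_left₀ (hx0 r) h4 2
          calc x r ^ 3 = x r * x r ^ 2 := by ring
            _ ≤ _ := mul_le_mul_of_nonneg_left h5 (hx0 r)
      _ = (∑ r ∈ Finset.range M, x r) ^ 3 := by rw [← Finset.sum_mul]; ring
  calc (M : ℝ) ^ 5 * ∑ r ∈ Finset.range M,
        ∫ ω, ‖g (a + 1 + (b + 1)) (M * i + r) ω‖ ^ 6 * ‖g (a + 1 + b₂) j ω‖ ^ 6 ∂μ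
      ≤ (M : ℝ) ^ 5 * ∑ r ∈ Finset.range M,
        A * S3 μ M m g (a + 1 + (b + 1)) (M * i + r) ^ 3 * S3 μ M m g (a + 1 + b₂) j ^ 3 :=
        mul_le_mul_of_nonneg_left (Finset.sum_le_sum h2) (by positivity)
    _ = (M : ℝ) ^ 5 * A * (∑ r ∈ Finset.range M, S3 μ M m g (a + 1 + (b + 1)) (M * i + r) ^ 3) *
        S3 μ M m g (a + 1 + b₂) j ^ 3 := by
        rw [← Finset.sum_mul, ← Finset.mul_sum]
        ring
    _ ≤ (M : ℝ) ^ 5 * A * S3 μ M m g (a + 1 + b) i ^ 3 * S3 μ M m g (a + 1 + b₂) j ^ 3 := by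
        have := hS0 (a + 1 + b₂) j
        gcongr

end Pool.Agent.Helper60.DC
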