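import Pool.Agent.Helper60.DC.D3

/-!
# DC-D4: the chain of bilinear inequalities of order twelve
-/

open MeasureTheory Real Set Filter Topology

set_option autoImplicit false

namespace Pool.Agent.Helper60.DC

open Pool.Agent.Helper22.AC

theorem bil2_to_1 {Ω : Type} [MeasurableSpace Ω] {μ : Measure Ω} [IsFiniteMeasure μ] {M m : ℕ} {g : ℕ → ℕ → Ω → ℂ}
    (hg : Sys3 μ M m g) {a c b : ℕ} {A D : ℝ} (hA : 0 ≤ A) (h : Bil2 μ M m g a c b A)
    (hn : ∀ j < M ^ (a + 1 + b), n12 μ (g (a + 1 + b) j) ≤ D * S3 μ M m g (a + 1 + b) j) :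
    Bil1 μ M m g a c b (A ^ (1 / 3 : ℝ) * D ^ 4) := by
  intro i hi j hj hij hs
  have hSi := S3_nonneg μ M m g (a + 1 + c) i
  have hSj := S3_nonneg μ M m g (a + 1 + b) j
  have h1 := hold210 μ (hg.meas (a + 1 + c) i) (hg.meas (a + 1 + b) j) (hg.bdd _ _) (hg.bdd _ _)
  have h2 := h i hi j hj hij hs
  have h3 : n12 μ (g (a + 1 + b) j) ^ 4 ≤ (D * S3 μ M m g (a + 1 + b) j) ^ 4 :=
    pow_le_pow_left₀ (n12_nonneg _ _) (hn j hj) 4
  have h4 : (∫ ω, ‖g (a + 1 + c) i ω‖ ^ 6 * ‖g (a + 1 + b) j ω‖ ^ 6 ∂μ) ^ (1 / 3 : ℝ) ≤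
      A ^ (1 / 3 : ℝ) * (S3 μ M m g (a + 1 + c) i * S3 μ M m g (a + 1 + b) j) := by
    refine (Real.rpow_le_rpow (integral_nonneg fun ω => by positivity) h2 (by norm_num)).trans (le_of_eq ?_)
    have e1 : A * S3 μ M m g (a + 1 + c) i ^ 3 * S3 μ M m g (a + 1 + b) j ^ 3 =
        A * (S3 μ M m g (a + 1 + c) i * S3 μ M m g (a + 1 + b) j) ^ 3 := by ring
    rw [e1, Real.mul_rpow hA (by positivity), ← Real.rpow_natCast (S3 μ M m g (a + 1 + c) i * _),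
      ← Real.rpow_mul (by positivity)]
    norm_num
  refine h1.trans ((mul_le_mul h4 h3 (pow_nonneg (n12_nonneg _ _) 4) (by positivity)).trans (le_of_eq ?_))
  ring

theorem bil1_to_2 {Ω : Type} [MeasurableSpace Ω] {μ : Measure Ω} [IsFiniteMeasure μ] {M m : ℕ} {g : ℕ → ℕ → Ω → ℂ}
    (hg : Sys3 μ M m g) {a b : ℕ} {V : ℝ} (hV : 0 ≤ V) (h : Bil1 μ M m g a b b V) : Bil2 μ M m g a b b V := by
  intro i hi j hj hij hs
  have hSi := S3_nonneg μ M m g (a + 1 + b) i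
  have hSj := S3_nonneg μ M m g (a + 1 + b) j
  have h1 := hold66' μ (hg.meas (a + 1 + b) i) (hg.meas (a + 1 + b) j) (hg.bdd _ _) (hg.bdd _ _)
  have h2 := h i hi j hj hij hs
  have h3 := h j hj i hi hij.symm hs.symm
  refine h1.trans ?_
  apply Real.sqrt_le_iff.2
  refine ⟨by positivity, ?_⟩
  refine (mul_le_mul h2 h3 (integral_nonneg fun ω => by positivity) (by positivity)).trans (le_of_eq ?_)
  ring

private theorem num3 {C C6 x d e' e s : ℝ} (hC : 1 ≤ C) (hC6 : 1 ≤ C6) (hx : 1 ≤ x)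
    (he : s + 5 / 3 + e' / 3 + 4 * d ≤ e) :
    3 * (((C6 * x ^ s) ^ 3 * (x ^ 5 * (27 * C6 ^ 3 * C ^ 6 * x ^ e'))) ^ (1 / 3 : ℝ) * (C * x ^ d) ^ 4) ≤
      27 * C6 ^ 3 * C ^ 6 * x ^ e := by
  have hx0 : 0 < x := zero_lt_one.trans_le hx
  have hC0 : 0 < C := zero_lt_one.trans_le hC
  have hC60 : 0 < C6 := zero_lt_one.trans_le hC6
  have h1 : ((C6 * x ^ s) ^ 3 * (x ^ 5 * (27 * C6 ^ 3 * C ^ 6 * x ^ e'))) ^ (1 / 3 : ℝ) =
      3 * C6 ^ 2 * C ^ 2 * x ^ (s + 5 / 3 + e' / 3) := by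
    have e1 : x ^ 5 * x ^ e' = (x ^ (5 / 3 + e' / 3)) ^ 3 := by
      rw [← Real.rpow_natCast (x ^ (5 / 3 + e' / 3)), ← Real.rpow_mul hx0.le, ← Real.rpow_natCast, ← Real.rpow_add hx0]
      congr 1
      push_cast
      ring
    have e2 : (C6 * x ^ s) ^ 3 * (x ^ 5 * (27 * C6 ^ 3 * C ^ 6 * x ^ e')) =
        (3 * C6 ^ 2 * C ^ 2 * (x ^ s * x ^ (5 / 3 + e' / 3))) ^ 3 := by
      calc (C6 * x ^ s) ^ 3 * (x ^ 5 * (27 * C6 ^ 3 * C ^ 6 * x ^ e'))
          = 27 * C6 ^ 6 * C ^ 6 * (x ^ s) ^ 3 * (x ^ 5 * x ^ e') := by ring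
        _ = 27 * C6 ^ 6 * C ^ 6 * (x ^ s) ^ 3 * (x ^ (5 / 3 + e' / 3)) ^ 3 := by rw [e1]
        _ = _ := by ring
    rw [e2, ← Real.rpow_natCast, ← Real.rpow_mul (by positivity)]
    norm_num
    rw [← Real.rpow_add hx0]
    left
    congr 1
    ring
  have h2 : (C * x ^ d) ^ 4 = C ^ 4 * x ^ (4 * d) := by
    rw [mul_pow, ← Real.rpow_natCast (x ^ d), ← Real.rpow_mul hx0.le]
    congr 2
    push_cast
    ring
  rw [h1, h2]
  have h3 : x ^ (s + 5 / 3 + e' / 3) * x ^ (4 * d) ≤ x ^ e := by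
    rw [← Real.rpow_add hx0]
    exact Real.rpow_le_rpow_of_exponent_le hx he
  have h4 : C6 ^ 2 * 1 ≤ C6 ^ 2 * C6 := mul_le_mul_of_nonneg_left hC6 (by positivity)
  calc 3 * (3 * C6 ^ 2 * C ^ 2 * x ^ (s + 5 / 3 + e' / 3) * (C ^ 4 * x ^ (4 * d)))
      = 9 * (C6 ^ 2 * 1) * C ^ 6 * (x ^ (s + 5 / 3 + e' / 3) * x ^ (4 * d)) := by ring
    _ ≤ 27 * (C6 ^ 2 * C6) * C ^ 6 * x ^ e := by gcongr; norm_num
    _ = 27 * C6 ^ 3 * C ^ 6 * x ^ e := by ring

theorem bil2_chain {Ω : Type} [MeasurableSpace Ω] {μ : Measure Ω} [IsFiniteMeasure μ] {M m : ℕ} {g : ℕ → ℕ → Ω → ℂ}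
    {C6 e6 : ℝ} (hC6 : 1 ≤ C6)
    (h6 : ∀ (Ω : Type) [MeasurableSpace Ω] (μ : Measure Ω) [IsFiniteMeasure μ] (m : ℕ) (g : ℕ → ℕ → Ω → ℂ), Sys μ M m g →
      n6 μ (g 0 0) ≤ C6 * (M : ℝ) ^ (e6 * (m : ℝ)) * ∑ r ∈ Finset.range (M ^ m), n6 μ (g m r))
    (hg : Sys3 μ M m g) (hM : 1 ≤ M) {lam C : ℝ} (hlam : 0 ≤ lam) (he0 : 0 ≤ e6) (he6 : e6 ≤ lam / 2) (hC : 1 ≤ C)
    (hdec : Dec3 μ M m g lam C) {a N B : ℕ} (hN : a + 1 + (3 ^ N * B + 1) ≤ m) :
    Bil2 μ M m g a (B + 1) (B + 1)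
      (27 * C6 ^ 3 * C ^ 6 * (M : ℝ) ^ (6 * lam * ((m : ℝ) - a - 1) - 3 * lam * N * B + 5 / 2)) := by
  have hx : (1 : ℝ) ≤ M := by exact_mod_cast hM
  have hx0 : (0 : ℝ) < M := zero_lt_one.trans_le hx
  have hC0 : 0 < C := zero_lt_one.trans_le hC
  have hC60 : 0 < C6 := zero_lt_one.trans_le hC6
  have hmon : ∀ i k, i ≤ k → 3 ^ i * B + 1 ≤ 3 ^ k * B + 1 := fun i k h =>
    Nat.add_le_add_right (Nat.mul_le_mul_right _ (Nat.pow_le_pow_right (by norm_num) h)) _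
  have triv : ∀ b, a + 1 + b ≤ m → Bil2 μ M m g a b b
      (27 * C6 ^ 3 * C ^ 6 * (M : ℝ) ^ (6 * lam * ((m : ℝ) - a - 1) + 5 / 2)) := by
    intro b hb i hi j hj hij hs
    have h1 := hold66 μ (hg.meas (a + 1 + b) i) (hg.meas (a + 1 + b) j) (hg.bdd _ _) (hg.bdd _ _)
    have hdec' : ∀ k < M ^ (a + 1 + b), n12 μ (g (a + 1 + b) k) ^ 3 ≤
        (C * (M : ℝ) ^ (lam * ((m : ℝ) - a - 1)) * S3 μ M m g (a + 1 + b) k) ^ 3 := by
      intro k hk
      refine pow_le_pow_left₀ (n12_nonneg _ _) ((hdec (a + 1 + b) hb k hk).trans ?_) 3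
      have e1 : lam * ((m : ℝ) - ((a + 1 + b : ℕ) : ℝ)) ≤ lam * ((m : ℝ) - a - 1) := by
        refine mul_le_mul_of_nonneg_left ?_ hlam
        push_cast
        have : (0 : ℝ) ≤ b := Nat.cast_nonneg b
        linarith
      have e2 := Real.rpow_le_rpow_of_exponent_le hx e1
      have e3 := S3_nonneg μ M m g (a + 1 + b) k
      gcongr
    have hSi := S3_nonneg μ M m g (a + 1 + b) i
    have hSj := S3_nonneg μ M m g (a + 1 + b) j
    refine h1.trans ((mul_le_mul (hdec' i hi) (hdec' j hj) (pow_nonneg (n12_nonneg _ _) 3) (by positivity)).trans ?_)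
    set y := (M : ℝ) ^ (lam * ((m : ℝ) - a - 1)) with hy
    have hy0 : 0 < y := Real.rpow_pos_of_pos hx0 _
    have e5 : y ^ 6 ≤ (M : ℝ) ^ (6 * lam * ((m : ℝ) - a - 1) + 5 / 2) := by
      rw [hy, ← Real.rpow_natCast, ← Real.rpow_mul hx0.le]
      apply Real.rpow_le_rpow_of_exponent_le hx
      push_cast
      linarith
    have e6' : (1 : ℝ) ≤ C6 ^ 3 := one_le_pow₀ hC6
    calc (C * y * S3 μ M m g (a + 1 + b) i) ^ 3 * (C * y * S3 μ M m g (a + 1 + b) j) ^ 3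
        = (1 * 1 * C ^ 6 * y ^ 6) * S3 μ M m g (a + 1 + b) i ^ 3 * S3 μ M m g (a + 1 + b) j ^ 3 := by ring
      _ ≤ (27 * C6 ^ 3 * C ^ 6 * (M : ℝ) ^ (6 * lam * ((m : ℝ) - a - 1) + 5 / 2)) *
          S3 μ M m g (a + 1 + b) i ^ 3 * S3 μ M m g (a + 1 + b) j ^ 3 := by
          gcongr
          norm_num
  have key : ∀ l i, i + l = N → Bil2 μ M m g a (3 ^ i * B + 1) (3 ^ i * B + 1)
        (27 * C6 ^ 3 * C ^ 6 * (M : ℝ) ^ (6 * lam * ((m : ℝ) - a - 1) -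
          3 * lam * l * (3 ^ i * (B : ℝ)) + 5 / 2)) := by
    intro l
    induction l with
    | zero =>
      intro i hi
      have h1 := triv (3 ^ i * B + 1) (by have := hmon i N (by omega); omega)
      refine bil2_mono h1 (le_of_eq ?_)
      congr 2
      push_cast
      ring
    | succ l ih =>
      intro i hi
      rcases Nat.eq_zero_or_pos B with hB | hB
      · subst hB
        have h1 := triv (3 ^ i * 0 + 1) (by have := hmon i N (by omega); omega)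
        refine bil2_mono h1 (le_of_eq ?_)
        congr 2
        push_cast
        ring
      have hi1 : (i + 1) + l = N := by omega
      have hleN : 3 ^ (i + 1) * B + 1 ≤ 3 ^ N * B + 1 := hmon (i + 1) N (by omega)
      have ih1 := ih (i + 1) hi1
      have hp : 1 ≤ 3 ^ i * B := Nat.mul_pos (by positivity) hB
      have hβ : 3 ^ (i + 1) * B = 3 * (3 ^ i * B) := by rw [pow_succ]; ring
      set b := 3 ^ i * B + 1 with hb
      set β := 3 ^ (i + 1) * B with hβd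
      have hbβ : b ≤ β := by omega
      have hm1 : a + 1 + (β + 1) ≤ m := by omega
      set L : ℝ := (m : ℝ) - a - 1 with hL
      set e' : ℝ := 6 * lam * L - 3 * lam * l * (3 ^ (i + 1) * (B : ℝ)) + 5 / 2 with he'
      have hA0 : 0 ≤ 27 * C6 ^ 3 * C ^ 6 * (M : ℝ) ^ e' := by positivity
      have s1 := bil2_down hg hA0 hm1 ih1
      have s2 := bil2_key hC60.le h6 hg hM (b₁ := b) (by positivity) hbβ hm1 s1
      have s3 := bil2_swap s2
      have s4 := bil2_to_1 hg (D := C * (M : ℝ) ^ (lam * ((m : ℝ) - ((a + 1 + b : ℕ) : ℝ)))) (by positivity) s3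
        (fun j hj => hdec (a + 1 + b) (by omega) j hj)
      have s5 := bil1_key hg (b₁ := b) (by omega : (β + 1) + 1 ≤ 3 * b) (by omega) (by omega) hm1 s4
      have s6 := bil1_to_2 hg (by positivity) s5
      refine bil2_mono s6 (num3 hC hC6 hx ?_)
      have hbr : (b : ℝ) = 3 ^ i * (B : ℝ) + 1 := by
        rw [hb]
        push_cast
        ring
      have hβr : (β : ℝ) = 3 * (b : ℝ) - 3 := by
        rw [hbr, hβ]
        push_cast
        ring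
      have hb1 : (1 : ℝ) ≤ b := by
        have : 1 ≤ b := by omega
        exact_mod_cast this
      have e1 : e6 * ((β : ℝ) - b) ≤ lam * b := by
        have h1 : (β : ℝ) - b ≤ 2 * b := by rw [hβr]; linarith
        have h2 : e6 * ((β : ℝ) - b) ≤ e6 * (2 * b) := mul_le_mul_of_nonneg_left h1 he0
        have h3 : e6 * (2 * b) ≤ lam / 2 * (2 * b) := mul_le_mul_of_nonneg_right he6 (by linarith)
        linarith
      have e2 : (m : ℝ) - ((a + 1 + b : ℕ) : ℝ) = L - b := by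
        rw [hL]
        push_cast
        ring
      rw [e2, he']
      have e3 : (3 : ℝ) ^ (i + 1) = 3 * 3 ^ i := by rw [pow_succ]; ring
      rw [e3]
      push_cast
      have e4 : lam * (3 ^ i * (B : ℝ)) ≤ lam * b := by
        rw [hbr]
        nlinarith
      nlinarith
  have hfin := key N 0 (by omega)
  simp only [pow_zero, one_mul] at hfin
  exact hfin

end Pool.Agent.Helper60.DC
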