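import Pool.Agent.Helper60.DC.D5

/-!
# DC-D6: the decoupling theorem of order twelve for abstract systems
-/

open MeasureTheory Real Set Filter Topology

set_option autoImplicit false

namespace Pool.Agent.Helper60.DC

open Pool.Agent.Helper22.AC

private lemma six_le {ι : Type*} (s : Finset ι) (x : ι → ℝ) (hx : ∀ i ∈ s, 0 ≤ x i) :
    ∑ i ∈ s, x i ^ 6 ≤ (∑ i ∈ s, x i) ^ 6 := by
  have h1 : ∀ i ∈ s, x i ^ 6 ≤ x i * (∑ i ∈ s, x i) ^ 5 := by
    intro i hi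
    have h2 : x i ≤ ∑ i ∈ s, x i := Finset.single_le_sum hx hi
    have h3 : x i ^ 5 ≤ (∑ i ∈ s, x i) ^ 5 := pow_le_pow_left₀ (hx i hi) h2 5
    calc x i ^ 6 = x i * x i ^ 5 := by ring
      _ ≤ x i * (∑ i ∈ s, x i) ^ 5 := mul_le_mul_of_nonneg_left h3 (hx i hi)
  calc ∑ i ∈ s, x i ^ 6 ≤ ∑ i ∈ s, x i * (∑ i ∈ s, x i) ^ 5 := Finset.sum_le_sum h1
    _ = (∑ i ∈ s, x i) ^ 6 := by rw [← Finset.sum_mul]; ring

theorem dec_step3 {Ω : Type} [MeasurableSpace Ω] {μ : Measure Ω} [IsFiniteMeasure μ] {M m : ℕ} {g : ℕ → ℕ → Ω → ℂ}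
    {C6 ε : ℝ} (hC6 : 1 ≤ C6)
    (h6 : ∀ (Ω : Type) [MeasurableSpace Ω] (μ : Measure Ω) [IsFiniteMeasure μ] (m : ℕ) (g : ℕ → ℕ → Ω → ℂ), Sys μ M m g →
      n6 μ (g 0 0) ≤ C6 * (M : ℝ) ^ (ε / 2 * (m : ℝ)) * ∑ r ∈ Finset.range (M ^ m), n6 μ (g m r))
    (hg : Sys3 μ M m g) (hM : 1 ≤ M) {lam C : ℝ} (hε : 0 < ε) (hMε : (2 : ℝ) ^ 48 ≤ (M : ℝ) ^ (6 * ε)) (hlam : ε ≤ lam)
    (hC : 1 ≤ C) {N : ℕ} (hN : 11 / (3 * ε) ≤ N) (hdec : Dec3 μ M m g lam C) :
    Dec3 μ M m g (max (lam - 1 / (6 * 3 ^ N)) ε) ((27 * 2 ^ 23 * (M : ℝ) ^ 32 * C6 ^ 3 * C ^ 6) ^ (1 / 6 : ℝ)) := by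
  set lam' : ℝ := max (lam - 1 / (6 * 3 ^ N)) ε with hlam'
  set K₀ : ℝ := 27 * 2 ^ 23 * (M : ℝ) ^ 32 * C6 ^ 3 * C ^ 6 with hK₀
  have hM' : (1 : ℝ) ≤ M := by exact_mod_cast hM
  have hM0 : (0 : ℝ) < M := by linarith
  have hM32 : (1 : ℝ) ≤ (M : ℝ) ^ 32 := one_le_pow₀ hM'
  have hC3 : (1 : ℝ) ≤ C6 ^ 3 * C ^ 6 := one_le_mul_of_one_le_of_one_le (one_le_pow₀ hC6) (one_le_pow₀ hC)
  have hC30 : (0 : ℝ) ≤ C6 ^ 3 * C ^ 6 := by linarith
  have hK32 : (M : ℝ) ^ 32 ≤ K₀ := by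
    have h1 : (M : ℝ) ^ 32 * 1 ≤ (M : ℝ) ^ 32 * (C6 ^ 3 * C ^ 6) := mul_le_mul_of_nonneg_left hC3 (by linarith)
    have h2 : (0 : ℝ) ≤ (M : ℝ) ^ 32 * (C6 ^ 3 * C ^ 6) := mul_nonneg (by linarith) hC30
    have h3 : K₀ = 27 * 2 ^ 23 * ((M : ℝ) ^ 32 * (C6 ^ 3 * C ^ 6)) := by rw [hK₀]; ring
    rw [h3]
    nlinarith [h1, h2]
  have hK₀1 : 1 ≤ K₀ := hM32.trans hK32
  have hK₀0 : 0 ≤ K₀ := by linarith
  have hl1 : ε ≤ lam' := le_max_right _ _
  have hl2 : lam - 1 / (6 * 3 ^ N) ≤ lam' := le_max_left _ _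
  have hl0 : 0 < lam' := lt_of_lt_of_le hε hl1
  have hMl : (2 : ℝ) ^ 48 ≤ (M : ℝ) ^ (6 * lam') :=
    hMε.trans (Real.rpow_le_rpow_of_exponent_le hM' (by linarith))
  have claim : ∀ l a : ℕ, a + l = m → ∀ j < M ^ a,
      n12 μ (g a j) ^ 6 ≤ K₀ * (M : ℝ) ^ (6 * lam' * (l : ℝ)) * S3 μ M m g a j ^ 6 := by
    intro l
    induction l with
    | zero =>
      intro a ha j hj
      have ha' : a = m := by omega
      subst ha'
      rw [S3_last, Nat.cast_zero, mul_zero, Real.rpow_zero, mul_one]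
      have h1 : 0 ≤ n12 μ (g a j) ^ 6 := pow_nonneg (n12_nonneg _ _) 6
      nlinarith
    | succ l ih =>
      intro a ha j hj
      have hS : S3 μ M m g a j = ∑ r ∈ Finset.range M, S3 μ M m g (a + 1) (M * j + r) := by
        have h := S3_split μ M m g (s := a) (t := 1) j (by omega)
        rwa [pow_one] at h
      have hS0 : 0 ≤ S3 μ M m g a j ^ 6 := pow_nonneg (S3_nonneg _ _ _ _ _ _) 6
      rcases Nat.eq_zero_or_pos l with hl | hl
      · subst hl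
        have ham : a + 1 = m := by omega
        have hadd : g a j = fun ω => ∑ r ∈ Finset.range M, g (a + 1) (M * j + r) ω :=
          funext (hg.add a (by omega) j hj)
        have h1 := n12_sum_le μ M (fun r => g (a + 1) (M * j + r)) (fun r => hg.meas _ _)
          (fun r => hg.bdd _ _)
        have h2 : ∑ r ∈ Finset.range M, n12 μ (g (a + 1) (M * j + r)) = S3 μ M m g a j := by
          rw [hS]
          apply Finset.sum_congr rfl
          intro r _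
          rw [ham, S3_last]
        rw [← hadd, h2] at h1
        have h3 : n12 μ (g a j) ^ 6 ≤ ((M : ℝ) ^ (11 / 6 : ℝ) * S3 μ M m g a j) ^ 6 :=
          pow_le_pow_left₀ (n12_nonneg _ _) h1 6
        have h4 : ((M : ℝ) ^ (11 / 6 : ℝ)) ^ 6 = (M : ℝ) ^ 11 := by
          rw [← Real.rpow_natCast, ← Real.rpow_mul hM0.le, ← Real.rpow_natCast]
          norm_num
        rw [mul_pow, h4] at h3
        have h5 : (M : ℝ) ^ 11 ≤ K₀ := (pow_le_pow_right₀ hM' (by norm_num)).trans hK32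
        have h6' : (1 : ℝ) ≤ (M : ℝ) ^ (6 * lam' * ((0 + 1 : ℕ) : ℝ)) := by
          apply Real.one_le_rpow hM'
          positivity
        have h7 : (M : ℝ) ^ 11 ≤ K₀ * (M : ℝ) ^ (6 * lam' * ((0 + 1 : ℕ) : ℝ)) := by
          nlinarith
        exact h3.trans (mul_le_mul_of_nonneg_right h7 hS0)
      · obtain ⟨B, hB⟩ : ∃ B : ℕ, B = (l - 1) / 3 ^ N := ⟨_, rfl⟩
        have hpow : 0 < 3 ^ N := by positivity
        have hB1 : 3 ^ N * B ≤ l - 1 := by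
          rw [hB]
          exact Nat.mul_div_le _ _
        have hB2 : B ≤ l - 1 := by
          rw [hB]
          exact Nat.div_le_self _ _
        have hB3 : l ≤ 3 ^ N * (B + 1) := by
          have h1 := Nat.lt_mul_div_succ (l - 1) hpow
          rw [← hB] at h1
          omega
        clear hB
        have hbil := bil2_chain hC6 h6 hg hM (lam := lam) (le_trans hε.le hlam) (by positivity)
          (by linarith) hC hdec (a := a) (N := N) (B := B) (by omega)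
        have hone := one_level3 hg hM (a := a) (b₀ := B + 1) hj (by omega) (by positivity) hbil
        have hcast : (m : ℝ) - a - 1 = l := by
          have : (m : ℝ) = a + (l + 1 : ℕ) := by
            rw [← ha]
            push_cast
            ring
          rw [this]
          push_cast
          ring
        rw [hcast] at hone
        -- first term
        have hfirst : ∑ r ∈ Finset.range M, n12 μ (g (a + 1) (M * j + r)) ^ 6 ≤
            K₀ * (M : ℝ) ^ (6 * lam' * (l : ℝ)) * S3 μ M m g a j ^ 6 := by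
          have h1 : ∀ r ∈ Finset.range M, n12 μ (g (a + 1) (M * j + r)) ^ 6 ≤
              K₀ * (M : ℝ) ^ (6 * lam' * (l : ℝ)) * S3 μ M m g (a + 1) (M * j + r) ^ 6 := by
            intro r hr
            apply ih (a + 1) (by omega)
            have h2 := desc_lt (M := M) (s := a) (t := 1) (r := r) hj (by rw [pow_one]; exact Finset.mem_range.1 hr)
            rwa [pow_one] at h2
          refine (Finset.sum_le_sum h1).trans ?_
          rw [← Finset.mul_sum, hS]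
          apply mul_le_mul_of_nonneg_left _ (by positivity)
          exact six_le _ _ fun r _ => S3_nonneg _ _ _ _ _ _
        -- second term
        have hlN : 11 ≤ 3 * lam * N := by
          have h1 : 11 / (3 * ε) * (3 * ε) = 11 := by field_simp
          have h2 : 11 / (3 * ε) * (3 * ε) ≤ N * (3 * lam) :=
            mul_le_mul hN (by linarith) (by positivity) (by positivity)
          rw [h1] at h2
          linarith
        have hBr : (l : ℝ) / 3 ^ N ≤ B + 1 := by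
          rw [div_le_iff₀ (by positivity)]
          have : ((l : ℕ) : ℝ) ≤ ((3 ^ N * (B + 1) : ℕ) : ℝ) := by exact_mod_cast hB3
          push_cast at this
          linarith
        have hexp : (28 + 10 * (B : ℝ)) + (6 * lam * l - 3 * lam * N * B + 5 / 2) ≤ 32 + 6 * lam' * l := by
          have h1 : (0 : ℝ) ≤ B := Nat.cast_nonneg B
          have h2 : 11 * (B : ℝ) ≤ 3 * lam * N * B := mul_le_mul_of_nonneg_right hlN h1
          have h3 : (lam - 1 / (6 * 3 ^ N)) * (6 * l) ≤ lam' * (6 * l) :=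
            mul_le_mul_of_nonneg_right hl2 (by positivity)
          have h4 : (lam - 1 / (6 * 3 ^ N)) * (6 * l) = 6 * lam * l - (l : ℝ) / 3 ^ N := by
            field_simp
          rw [h4] at h3
          nlinarith
        have hsecond : 2 ^ 23 * (M : ℝ) ^ (18 + 10 * (B + 1)) *
            (27 * C6 ^ 3 * C ^ 6 * (M : ℝ) ^ (6 * lam * l - 3 * lam * N * B + 5 / 2)) ≤
            K₀ * (M : ℝ) ^ (6 * lam' * (l : ℝ)) := by
          have h1 : (M : ℝ) ^ (18 + 10 * (B + 1)) * (M : ℝ) ^ (6 * lam * l - 3 * lam * N * B + 5 / 2) ≤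
              (M : ℝ) ^ 32 * (M : ℝ) ^ (6 * lam' * (l : ℝ)) := by
            rw [← Real.rpow_natCast, ← Real.rpow_natCast, ← Real.rpow_add hM0, ← Real.rpow_add hM0]
            apply Real.rpow_le_rpow_of_exponent_le hM'
            push_cast
            linarith
          calc 2 ^ 23 * (M : ℝ) ^ (18 + 10 * (B + 1)) *
              (27 * C6 ^ 3 * C ^ 6 * (M : ℝ) ^ (6 * lam * l - 3 * lam * N * B + 5 / 2))
              = (27 * 2 ^ 23 * (C6 ^ 3 * C ^ 6)) * ((M : ℝ) ^ (18 + 10 * (B + 1)) *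
                (M : ℝ) ^ (6 * lam * l - 3 * lam * N * B + 5 / 2)) := by ring
            _ ≤ (27 * 2 ^ 23 * (C6 ^ 3 * C ^ 6)) * ((M : ℝ) ^ 32 * (M : ℝ) ^ (6 * lam' * (l : ℝ))) :=
                mul_le_mul_of_nonneg_left h1 (by positivity)
            _ = K₀ * (M : ℝ) ^ (6 * lam' * (l : ℝ)) := by rw [hK₀]; ring
        have hsum : K₀ * (M : ℝ) ^ (6 * lam' * ((l + 1 : ℕ) : ℝ)) =
            K₀ * (M : ℝ) ^ (6 * lam' * (l : ℝ)) * (M : ℝ) ^ (6 * lam') := by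
          rw [mul_assoc K₀ ((M : ℝ) ^ (6 * lam' * (l : ℝ))), ← Real.rpow_add hM0]
          congr 2
          push_cast
          ring
        have hX : 0 ≤ K₀ * (M : ℝ) ^ (6 * lam' * (l : ℝ)) * S3 μ M m g a j ^ 6 := by positivity
        calc n12 μ (g a j) ^ 6 ≤ 2 ^ 47 * ∑ r ∈ Finset.range M, n12 μ (g (a + 1) (M * j + r)) ^ 6 +
              2 ^ 23 * (M : ℝ) ^ (18 + 10 * (B + 1)) *
                (27 * C6 ^ 3 * C ^ 6 * (M : ℝ) ^ (6 * lam * l - 3 * lam * N * B + 5 / 2)) *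
                S3 μ M m g a j ^ 6 := hone
          _ ≤ 2 ^ 47 * (K₀ * (M : ℝ) ^ (6 * lam' * (l : ℝ)) * S3 μ M m g a j ^ 6) +
              K₀ * (M : ℝ) ^ (6 * lam' * (l : ℝ)) * S3 μ M m g a j ^ 6 :=
                add_le_add (mul_le_mul_of_nonneg_left hfirst (by positivity))
                  (mul_le_mul_of_nonneg_right hsecond hS0)
          _ = (K₀ * (M : ℝ) ^ (6 * lam' * (l : ℝ)) * S3 μ M m g a j ^ 6) * (2 ^ 47 + 1) := by ring
          _ ≤ (K₀ * (M : ℝ) ^ (6 * lam' * (l : ℝ)) * S3 μ M m g a j ^ 6) * (M : ℝ) ^ (6 * lam') :=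
                mul_le_mul_of_nonneg_left (le_trans (by norm_num) hMl) hX
          _ = K₀ * (M : ℝ) ^ (6 * lam' * ((l + 1 : ℕ) : ℝ)) * S3 μ M m g a j ^ 6 := by
                rw [hsum]
                ring
  intro s hs j hj
  have h1 := claim (m - s) s (by omega) j hj
  have h2 : ((m - s : ℕ) : ℝ) = (m : ℝ) - s := by
    rw [Nat.cast_sub hs]
  rw [h2] at h1
  have hR : 0 ≤ K₀ ^ (1 / 6 : ℝ) * (M : ℝ) ^ (lam' * ((m : ℝ) - s)) * S3 μ M m g s j :=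
    mul_nonneg (by positivity) (S3_nonneg _ _ _ _ _ _)
  rw [← pow_le_pow_iff_left₀ (n12_nonneg _ _) hR (by norm_num : (6 : ℕ) ≠ 0)]
  refine h1.trans (le_of_eq ?_)
  rw [mul_pow, mul_pow]
  congr 2
  · rw [← Real.rpow_natCast, ← Real.rpow_mul hK₀0]
    norm_num
  · rw [← Real.rpow_natCast, ← Real.rpow_mul hM0.le]
    congr 1
    push_cast
    ring

private lemma dec_zero3 {Ω : Type} [MeasurableSpace Ω] {μ : Measure Ω} [IsFiniteMeasure μ] {M m : ℕ}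
    {g : ℕ → ℕ → Ω → ℂ} (hg : Sys3 μ M m g) (hM : 1 ≤ M) {lam : ℝ} (hlam : 11 / 6 ≤ lam) :
    Dec3 μ M m g lam 1 := by
  intro s hs j hj
  have hM' : (1 : ℝ) ≤ M := by exact_mod_cast hM
  have h1 : g s j = fun ω => ∑ r ∈ Finset.range (M ^ (m - s)), g m (M ^ (m - s) * j + r) ω := by
    funext ω
    rw [desc_sum3 hg (s := s) (t := m - s) (by omega) hj ω]
    simp only [Nat.add_sub_cancel' hs]
  have h2 := n12_sum_le μ (M ^ (m - s)) (fun r => g m (M ^ (m - s) * j + r)) (fun r => hg.meas _ _)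
    (fun r => hg.bdd _ _)
  rw [h1]
  refine h2.trans ?_
  rw [one_mul]
  have h3 : (((M ^ (m - s) : ℕ) : ℝ)) ^ (11 / 6 : ℝ) ≤ (M : ℝ) ^ (lam * ((m : ℝ) - s)) := by
    rw [Nat.cast_pow, ← Real.rpow_natCast, ← Real.rpow_mul (by positivity), Nat.cast_sub hs]
    apply Real.rpow_le_rpow_of_exponent_le hM'
    have h4 : (0 : ℝ) ≤ (m : ℝ) - s := by
      rw [sub_nonneg]
      exact_mod_cast hs
    nlinarith
  exact mul_le_mul_of_nonneg_right h3 (Finset.sum_nonneg fun r _ => n12_nonneg _ _)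

private lemma dec_iter3 {C6 ε : ℝ} (hC6 : 1 ≤ C6) (hε : 0 < ε) {M : ℕ} (hM : 1 ≤ M)
    (h6 : ∀ (Ω : Type) [MeasurableSpace Ω] (μ : Measure Ω) [IsFiniteMeasure μ] (m : ℕ) (g : ℕ → ℕ → Ω → ℂ), Sys μ M m g →
      n6 μ (g 0 0) ≤ C6 * (M : ℝ) ^ (ε / 2 * (m : ℝ)) * ∑ r ∈ Finset.range (M ^ m), n6 μ (g m r))
    (hMε : (2 : ℝ) ^ 48 ≤ (M : ℝ) ^ (6 * ε)) {N : ℕ} (hN : 11 / (3 * ε) ≤ N) (k : ℕ) :
    ∃ C : ℝ, 1 ≤ C ∧ ∀ (Ω : Type) [MeasurableSpace Ω] (μ : Measure Ω) [IsFiniteMeasure μ] (m : ℕ)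
      (g : ℕ → ℕ → Ω → ℂ), Sys3 μ M m g →
      Dec3 μ M m g (max (11 / 6 - (k : ℝ) * (1 / (6 * 3 ^ N))) ε) C := by
  induction k with
  | zero =>
    refine ⟨1, le_rfl, fun Ω _ μ _ m g hg => dec_zero3 hg hM ?_⟩
    rw [Nat.cast_zero, zero_mul, sub_zero]
    exact le_max_left _ _
  | succ k ih =>
    obtain ⟨C, hC, h⟩ := ih
    have hM' : (1 : ℝ) ≤ M := by exact_mod_cast hM
    refine ⟨(27 * 2 ^ 23 * (M : ℝ) ^ 32 * C6 ^ 3 * C ^ 6) ^ (1 / 6 : ℝ), ?_, fun Ω _ μ _ m g hg => ?_⟩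
    · apply Real.one_le_rpow _ (by norm_num)
      have h1 : (1 : ℝ) ≤ (M : ℝ) ^ 32 := one_le_pow₀ hM'
      have h2 : (1 : ℝ) ≤ C6 ^ 3 * C ^ 6 := one_le_mul_of_one_le_of_one_le (one_le_pow₀ hC6) (one_le_pow₀ hC)
      have h3 : (1 : ℝ) ≤ (M : ℝ) ^ 32 * (C6 ^ 3 * C ^ 6) := one_le_mul_of_one_le_of_one_le h1 h2
      nlinarith
    · set x : ℝ := 11 / 6 - (k : ℝ) * (1 / (6 * 3 ^ N)) with hx
      have hstep := dec_step3 hC6 h6 hg hM hε hMε (le_max_right x ε) hC hN (h Ω μ m g hg)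
      have e : max (max x ε - 1 / (6 * 3 ^ N)) ε = max (11 / 6 - ((k + 1 : ℕ) : ℝ) * (1 / (6 * 3 ^ N))) ε := by
        have hd : (0 : ℝ) < 1 / (6 * 3 ^ N) := by positivity
        have e1 : 11 / 6 - ((k + 1 : ℕ) : ℝ) * (1 / (6 * 3 ^ N)) = x - 1 / (6 * 3 ^ N) := by
          rw [hx]
          push_cast
          ring
        rw [e1]
        rcases le_total x ε with h3 | h3
        · rw [max_eq_right h3, max_eq_right (by linarith), max_eq_right (by linarith)]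
        · rw [max_eq_left h3]
      rw [e] at hstep
      exact hstep

/-- Decoupling of order twelve for abstract systems -/
theorem decoupling3 {ε : ℝ} (hε : 0 < ε) : ∃ M0 : ℕ, 1 ≤ M0 ∧ ∀ M : ℕ, M0 ≤ M → ∃ C : ℝ, 1 ≤ C ∧
    ∀ (Ω : Type) [MeasurableSpace Ω] (μ : Measure Ω) [IsFiniteMeasure μ] (m : ℕ) (g : ℕ → ℕ → Ω → ℂ), Sys3 μ M m g →
      n12 μ (g 0 0) ≤ C * (M : ℝ) ^ (ε * (m : ℝ)) * ∑ r ∈ Finset.range (M ^ m), n12 μ (g m r) := by
  obtain ⟨M1, hM1, hd6⟩ := decoupling (ε := ε / 2) (by positivity)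
  obtain ⟨N, hN⟩ : ∃ N : ℕ, 11 / (3 * ε) ≤ N := exists_nat_ge _
  obtain ⟨K, hK⟩ : ∃ K : ℕ, ((2 : ℝ) ^ 48) ^ (1 / (6 * ε)) ≤ K := exists_nat_ge _
  refine ⟨K + 1 + M1, by omega, fun M hM => ?_⟩
  have hM1' : 1 ≤ M := by omega
  obtain ⟨C6, hC6, h6⟩ := hd6 M (by omega)
  have hMε : (2 : ℝ) ^ 48 ≤ (M : ℝ) ^ (6 * ε) := by
    have h1 : ((2 : ℝ) ^ 48) ^ (1 / (6 * ε)) ≤ M := hK.trans (by exact_mod_cast (by omega : K ≤ M))
    have h2 : (((2 : ℝ) ^ 48) ^ (1 / (6 * ε))) ^ (6 * ε) ≤ (M : ℝ) ^ (6 * ε) :=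
      Real.rpow_le_rpow (by positivity) h1 (by positivity)
    rwa [← Real.rpow_mul (by positivity), one_div_mul_cancel (by positivity), Real.rpow_one] at h2
  obtain ⟨C, hC, h⟩ := dec_iter3 hC6 hε hM1' h6 hMε hN (11 * 3 ^ N)
  refine ⟨C, hC, fun Ω _ μ _ m g hg => ?_⟩
  have h1 := h Ω μ m g hg 0 (Nat.zero_le m) 0 (by simp)
  have h2 : max (11 / 6 - ((11 * 3 ^ N : ℕ) : ℝ) * (1 / (6 * 3 ^ N))) ε = ε := by
    apply max_eq_right
    have h3 : ((11 * 3 ^ N : ℕ) : ℝ) * (1 / (6 * 3 ^ N)) = 11 / 6 := by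
      push_cast
      field_simp
    rw [h3, sub_self]
    exact hε.le
  rw [h2] at h1
  unfold S3 at h1
  simpa using h1

end Pool.Agent.Helper60.DC
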