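import Pool.Agent.Helper22.AC.A7

/-!
# DC: decoupling of order twelve (cones over nondegenerate curves in four dimensions), abstract part

The tree setting is the one of `Pool.Agent.Helper22.AC` (`Sys`, `sep`, `n6`). `Sys3` is the system with the two orthogonality relations of order
twelve, `n12` is the square of the `L¹²` norm, `S3` the sum of `n12` over the descendants at the last level, `Dec3` the decoupling inequality,
`Bil1`, `Bil2` the bilinear inequalities for `∫ ‖g_i‖² ‖g_j‖¹⁰` and `∫ ‖g_i‖⁶ ‖g_j‖⁶`.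
-/

open MeasureTheory Real Set Filter Topology

set_option autoImplicit false

namespace Pool.Agent.Helper60.DC

open Pool.Agent.Helper22.AC

/-- the square of the `L¹²` norm -/
noncomputable def n12 {Ω : Type} [MeasurableSpace Ω] (μ : Measure Ω) (f : Ω → ℂ) : ℝ :=
  (∫ ω, ‖f ω‖ ^ 12 ∂μ) ^ (1 / 6 : ℝ)

/-- an `M`-adic system of depth `m` with the two orthogonality relations of order twelve -/
structure Sys3 {Ω : Type} [MeasurableSpace Ω] (μ : Measure Ω) (M m : ℕ) (g : ℕ → ℕ → Ω → ℂ) : Prop where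
  meas : ∀ s j, Measurable (g s j)
  bdd : ∀ s j, ∃ B : ℝ, ∀ ω, ‖g s j ω‖ ≤ B
  add : ∀ s < m, ∀ j < M ^ s, ∀ ω, g s j ω = ∑ r ∈ Finset.range M, g (s + 1) (M * j + r) ω
  orth1 : ∀ a b c : ℕ, c + 1 ≤ 3 * b → a + 1 + b ≤ m → a + 1 + c ≤ m →
    ∀ j < M ^ (a + 1 + b), ∀ i < M ^ (a + 1 + c), ∀ i' < M ^ (a + 1 + c),
      j / M ^ (b + 1) = i / M ^ (c + 1) → i / M ^ c = i' / M ^ c → sep (i / M ^ c) (j / M ^ b) → sep i i' →
        ∫ ω, g (a + 1 + c) i ω * (starRingEnd ℂ) (g (a + 1 + c) i' ω) *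
          ((‖g (a + 1 + b) j ω‖ ^ 10 : ℝ) : ℂ) ∂μ = 0
  orth2 : ∀ a b A b' c' : ℕ, a + 1 ≤ A → c' + 1 ≤ 2 * b' → A + 1 + b' ≤ a + b → A + 1 + c' ≤ a + b → a + 1 + b ≤ m →
    ∀ J < M ^ (a + 1 + b), ∀ k < M ^ (A + 1 + b'), ∀ i < M ^ (A + 1 + c'), ∀ i' < M ^ (A + 1 + c'),
      k / M ^ (b' + 1) = i / M ^ (c' + 1) → i / M ^ c' = i' / M ^ c' → sep (i / M ^ c') (k / M ^ b') → sep i i' →
      i / M ^ (c' + 1) / M ^ (A - a) = J / M ^ (b + 1) → sep (i / M ^ (c' + 1) / M ^ (A - (a + 1))) (J / M ^ b) →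
        ∫ ω, g (A + 1 + c') i ω * (starRingEnd ℂ) (g (A + 1 + c') i' ω) *
          ((‖g (A + 1 + b') k ω‖ ^ 4 * ‖g (a + 1 + b) J ω‖ ^ 6 : ℝ) : ℂ) ∂μ = 0

/-- sum of `n12` over the descendants of the arc `(s, j)` at the last level `m` -/
noncomputable def S3 {Ω : Type} [MeasurableSpace Ω] (μ : Measure Ω) (M m : ℕ) (g : ℕ → ℕ → Ω → ℂ) (s j : ℕ) : ℝ :=
  ∑ r ∈ Finset.range (M ^ (m - s)), n12 μ (g m (M ^ (m - s) * j + r))

/-- the decoupling inequality with exponent `lam` for all arcs of the system -/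
def Dec3 {Ω : Type} [MeasurableSpace Ω] (μ : Measure Ω) (M m : ℕ) (g : ℕ → ℕ → Ω → ℂ) (lam C : ℝ) : Prop :=
  ∀ s ≤ m, ∀ j < M ^ s, n12 μ (g s j) ≤ C * (M : ℝ) ^ (lam * ((m : ℝ) - s)) * S3 μ M m g s j

/-- the bilinear inequality of type `(2, 10)` between the levels `a + 1 + b₁` and `a + 1 + b₂` inside one arc of level `a` -/
def Bil1 {Ω : Type} [MeasurableSpace Ω] (μ : Measure Ω) (M m : ℕ) (g : ℕ → ℕ → Ω → ℂ) (a b₁ b₂ : ℕ) (A : ℝ) : Prop :=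
  ∀ i < M ^ (a + 1 + b₁), ∀ j < M ^ (a + 1 + b₂), i / M ^ (b₁ + 1) = j / M ^ (b₂ + 1) →
    sep (i / M ^ b₁) (j / M ^ b₂) →
      ∫ ω, ‖g (a + 1 + b₁) i ω‖ ^ 2 * ‖g (a + 1 + b₂) j ω‖ ^ 10 ∂μ ≤
        A * S3 μ M m g (a + 1 + b₁) i * S3 μ M m g (a + 1 + b₂) j ^ 5

/-- the bilinear inequality of type `(6, 6)` between the levels `a + 1 + b₁` and `a + 1 + b₂` inside one arc of level `a` -/
def Bil2 {Ω : Type} [MeasurableSpace Ω] (μ : Measure Ω) (M m : ℕ) (g : ℕ → ℕ → Ω → ℂ) (a b₁ b₂ : ℕ) (A : ℝ) : Prop :=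
  ∀ i < M ^ (a + 1 + b₁), ∀ j < M ^ (a + 1 + b₂), i / M ^ (b₁ + 1) = j / M ^ (b₂ + 1) →
    sep (i / M ^ b₁) (j / M ^ b₂) →
      ∫ ω, ‖g (a + 1 + b₁) i ω‖ ^ 6 * ‖g (a + 1 + b₂) j ω‖ ^ 6 ∂μ ≤
        A * S3 μ M m g (a + 1 + b₁) i ^ 3 * S3 μ M m g (a + 1 + b₂) j ^ 3

theorem n12_nonneg {Ω : Type} [MeasurableSpace Ω] (μ : Measure Ω) (f : Ω → ℂ) : 0 ≤ n12 μ f := by
  unfold n12
  exact Real.rpow_nonneg (integral_nonneg fun ω => by positivity) _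

theorem n12_six {Ω : Type} [MeasurableSpace Ω] (μ : Measure Ω) (f : Ω → ℂ) : n12 μ f ^ 6 = ∫ ω, ‖f ω‖ ^ 12 ∂μ := by
  unfold n12
  have h : 0 ≤ ∫ ω, ‖f ω‖ ^ 12 ∂μ := integral_nonneg fun ω => by positivity
  rw [← Real.rpow_natCast, ← Real.rpow_mul h]
  norm_num

theorem desc_sum3 {Ω : Type} [MeasurableSpace Ω] {μ : Measure Ω} {M m : ℕ} {g : ℕ → ℕ → Ω → ℂ} (hg : Sys3 μ M m g)
    {s t j : ℕ} (h : s + t ≤ m) (hj : j < M ^ s) (ω : Ω) :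
    g s j ω = ∑ r ∈ Finset.range (M ^ t), g (s + t) (M ^ t * j + r) ω := by
  induction t with
  | zero => simp
  | succ t ih =>
    rw [ih (by omega), pow_succ, sum_range_mul']
    refine Finset.sum_congr rfl fun r hr => ?_
    rw [hg.add (s + t) (by omega) _ (desc_lt hj (Finset.mem_range.1 hr)) ω]
    refine Finset.sum_congr rfl fun r' _ => ?_
    have e1 : M * (M ^ t * j + r) + r' = M ^ t * M * j + (M * r + r') := by ring
    rw [e1, add_assoc]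

theorem S3_split {Ω : Type} [MeasurableSpace Ω] (μ : Measure Ω) (M m : ℕ) (g : ℕ → ℕ → Ω → ℂ) {s t : ℕ} (j : ℕ)
    (h : s + t ≤ m) : S3 μ M m g s j = ∑ r ∈ Finset.range (M ^ t), S3 μ M m g (s + t) (M ^ t * j + r) := by
  unfold S3
  obtain ⟨u, hu⟩ : ∃ u, m = s + t + u := ⟨m - (s + t), by omega⟩
  have h1 : m - s = t + u := by omega
  have h2 : m - (s + t) = u := by omega
  rw [h1, h2, pow_add, sum_range_mul']
  refine Finset.sum_congr rfl fun r _ => Finset.sum_congr rfl fun r' _ => ?_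
  have e1 : M ^ t * M ^ u * j + (M ^ u * r + r') = M ^ u * (M ^ t * j + r) + r' := by ring
  rw [e1]

theorem S3_nonneg {Ω : Type} [MeasurableSpace Ω] (μ : Measure Ω) (M m : ℕ) (g : ℕ → ℕ → Ω → ℂ) (s j : ℕ) :
    0 ≤ S3 μ M m g s j := by
  unfold S3
  exact Finset.sum_nonneg fun r _ => n12_nonneg _ _

theorem S3_last {Ω : Type} [MeasurableSpace Ω] (μ : Measure Ω) (M m : ℕ) (g : ℕ → ℕ → Ω → ℂ) (j : ℕ) :
    S3 μ M m g m j = n12 μ (g m j) := by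
  unfold S3
  simp

theorem bil1_mono {Ω : Type} [MeasurableSpace Ω] {μ : Measure Ω} {M m : ℕ} {g : ℕ → ℕ → Ω → ℂ} {a b₁ b₂ : ℕ} {A A' : ℝ}
    (h : Bil1 μ M m g a b₁ b₂ A) (hA : A ≤ A') : Bil1 μ M m g a b₁ b₂ A' := by
  intro i hi j hj hij hs
  refine (h i hi j hj hij hs).trans ?_
  have h1 := S3_nonneg μ M m g (a + 1 + b₁) i
  have h2 := S3_nonneg μ M m g (a + 1 + b₂) j
  gcongr

theorem bil2_mono {Ω : Type} [MeasurableSpace Ω] {μ : Measure Ω} {M m : ℕ} {g : ℕ → ℕ → Ω → ℂ} {a b₁ b₂ : ℕ} {A A' : ℝ}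
    (h : Bil2 μ M m g a b₁ b₂ A) (hA : A ≤ A') : Bil2 μ M m g a b₁ b₂ A' := by
  intro i hi j hj hij hs
  refine (h i hi j hj hij hs).trans ?_
  have h1 := S3_nonneg μ M m g (a + 1 + b₁) i
  have h2 := S3_nonneg μ M m g (a + 1 + b₂) j
  gcongr

theorem bil2_swap {Ω : Type} [MeasurableSpace Ω] {μ : Measure Ω} {M m : ℕ} {g : ℕ → ℕ → Ω → ℂ} {a b₁ b₂ : ℕ} {A : ℝ}
    (h : Bil2 μ M m g a b₁ b₂ A) : Bil2 μ M m g a b₂ b₁ A := by
  intro i hi j hj hij hs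
  have h1 := h j hj i hi hij.symm hs.symm
  have e1 : ∫ ω, ‖g (a + 1 + b₂) i ω‖ ^ 6 * ‖g (a + 1 + b₁) j ω‖ ^ 6 ∂μ =
      ∫ ω, ‖g (a + 1 + b₁) j ω‖ ^ 6 * ‖g (a + 1 + b₂) i ω‖ ^ 6 ∂μ := by
    congr 1
    funext ω
    ring
  rw [e1]
  refine h1.trans (le_of_eq ?_)
  ring

end Pool.Agent.Helper60.DC
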